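import Pool.Agent.H85.BC.Targets

/-!
# Bicommutant-good II₁ factors: basic facts
-/

set_option autoImplicit false
set_option linter.unusedSectionVars false
set_option linter.unusedSimpArgs false
set_option linter.deprecated false

open scoped InnerProductSpace Topology
open Filter

namespace Pool.Agent.H85.BC

section
variable {H : Type*} [NormedAddCommGroup H] [InnerProductSpace ℂ H] [CompleteSpace H]

/-! ### The vector functional -/

theorem mul_app (x y : H →L[ℂ] H) (η : H) : (x * y) η = x (y η) := rfl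

theorem inner_star_left (x : H →L[ℂ] H) (a b : H) :
    (inner ℂ (star x a) b : ℂ) = inner ℂ a (x b) :=
  ContinuousLinearMap.adjoint_inner_left x b a

theorem inner_star_right (x : H →L[ℂ] H) (a b : H) :
    (inner ℂ a (star x b) : ℂ) = inner ℂ (x a) b :=
  ContinuousLinearMap.adjoint_inner_right x a b

theorem tr_add (ξ : H) (x y : H →L[ℂ] H) : tr ξ (x + y) = tr ξ x + tr ξ y := by
  simp [tr, inner_add_right]

theorem tr_sub (ξ : H) (x y : H →L[ℂ] H) : tr ξ (x - y) = tr ξ x - tr ξ y := by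
  simp [tr, inner_sub_right]

theorem tr_neg (ξ : H) (x : H →L[ℂ] H) : tr ξ (-x) = -tr ξ x := by
  simp [tr]

theorem tr_zero (ξ : H) : tr ξ (0 : H →L[ℂ] H) = 0 := by
  simp [tr]

theorem tr_smul (ξ : H) (c : ℂ) (x : H →L[ℂ] H) : tr ξ (c • x) = c * tr ξ x := by
  simp [tr, inner_smul_right]

theorem tr_sum {ι : Type*} (s : Finset ι) (ξ : H) (x : ι → (H →L[ℂ] H)) :
    tr ξ (∑ i ∈ s, x i) = ∑ i ∈ s, tr ξ (x i) := by
  simp [tr, ContinuousLinearMap.sum_apply, inner_sum]

theorem tr_star (ξ : H) (x : H →L[ℂ] H) : tr ξ (star x) = (starRingEnd ℂ) (tr ξ x) := by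
  unfold tr
  rw [inner_star_right, inner_conj_symm]

/-- `τ(x* y) = ⟨x ξ, y ξ⟩`. -/
theorem tr_star_mul (ξ : H) (x y : H →L[ℂ] H) :
    tr ξ (star x * y) = inner ℂ (x ξ) (y ξ) := by
  unfold tr
  rw [mul_app, inner_star_right]

/-- `τ(x* x) = ‖x ξ‖²`. -/
theorem tr_star_mul_self (ξ : H) (x : H →L[ℂ] H) :
    tr ξ (star x * x) = ((‖x ξ‖ ^ 2 : ℝ) : ℂ) := by
  rw [tr_star_mul, inner_self_eq_norm_sq_to_K]
  push_cast
  rfl

/-- `|τ(x* y)| ≤ ‖x ξ‖ ‖y ξ‖`. -/
theorem norm_tr_star_mul_le (ξ : H) (x y : H →L[ℂ] H) :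
    ‖tr ξ (star x * y)‖ ≤ ‖x ξ‖ * ‖y ξ‖ := by
  rw [tr_star_mul]
  exact norm_inner_le_norm _ _

/-- The trace of a projection. -/
theorem tr_proj (ξ : H) {e : H →L[ℂ] H} (he : IsStarProjection e) :
    tr ξ e = ((‖e ξ‖ ^ 2 : ℝ) : ℂ) := by
  rw [← tr_star_mul_self, he.isSelfAdjoint.star_eq, he.isIdempotentElem.eq]

/-- `2`-norm of a left multiple. -/
theorem norm_mul_left (ξ : H) (a x : H →L[ℂ] H) : ‖(a * x) ξ‖ ≤ ‖a‖ * ‖x ξ‖ := by
  rw [mul_app]
  exact a.le_opNorm _

/-- A projection does not increase norms. -/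
theorem proj_apply_norm_le {e : H →L[ℂ] H} (he : IsStarProjection e) (η : H) :
    ‖e η‖ ≤ ‖η‖ := by
  have h1 : ‖e η‖ ^ 2 ≤ ‖e η‖ * ‖η‖ := by
    have h2 : (inner ℂ (e η) (e η) : ℂ) = inner ℂ (e η) η := by
      conv_lhs => rw [← inner_star_left, he.isSelfAdjoint.star_eq,
        ← mul_app, he.isIdempotentElem.eq]
    have h3 : ‖(inner ℂ (e η) (e η) : ℂ)‖ ≤ ‖e η‖ * ‖η‖ := by
      rw [h2]
      exact norm_inner_le_norm _ _
    rw [inner_self_eq_norm_sq_to_K] at h3
    simpa using h3
  by_contra hc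
  push Not at hc
  have h4 : 0 < ‖e η‖ := lt_of_le_of_lt (norm_nonneg _) hc
  nlinarith

theorem proj_norm_le_one {e : H →L[ℂ] H} (he : IsStarProjection e) : ‖e‖ ≤ 1 :=
  ContinuousLinearMap.opNorm_le_bound _ zero_le_one (fun η => by
    rw [one_mul]; exact proj_apply_norm_le he η)

/-! ### Von Neumann algebras -/

theorem smul_mem' (N : VonNeumannAlgebra H) {x : H →L[ℂ] H} (c : ℂ) (hx : x ∈ N) : c • x ∈ N :=
  N.toStarSubalgebra.smul_mem hx c

theorem star_mem' (N : VonNeumannAlgebra H) {x : H →L[ℂ] H} (hx : x ∈ N) : star x ∈ N :=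
  star_mem hx

theorem sum_mem' (N : VonNeumannAlgebra H) {ι : Type*} (s : Finset ι)
    (x : ι → (H →L[ℂ] H)) (hx : ∀ i ∈ s, x i ∈ N) : ∑ i ∈ s, x i ∈ N :=
  N.toStarSubalgebra.sum_mem hx

/-- Membership in a von Neumann algebra through its commutant. -/
theorem mem_of_commutant (N : VonNeumannAlgebra H) {x : H →L[ℂ] H}
    (h : ∀ t : H →L[ℂ] H, (∀ y ∈ N, y * t = t * y) → t * x = x * t) : x ∈ N := by
  have h1 : x ∈ N.commutant.commutant := by
    rw [VonNeumannAlgebra.mem_commutant_iff]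
    intro t ht
    exact h t (VonNeumannAlgebra.mem_commutant_iff.1 ht)
  rwa [VonNeumannAlgebra.commutant_commutant] at h1

/-- Bounded operators commuting with `N` form a set closed under `star`. -/
theorem commutes_star {N : VonNeumannAlgebra H} {t : H →L[ℂ] H}
    (h : ∀ y ∈ N, y * t = t * y) : ∀ y ∈ N, y * star t = star t * y := by
  intro y hy
  have h1 := congrArg star (h (star y) (star_mem hy))
  simpa [star_mul, star_star] using h1.symm

theorem subset_gen {S : Set (H →L[ℂ] H)} {x : H →L[ℂ] H} (hx : x ∈ S) : x ∈ gen S := by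
  unfold gen
  rw [VonNeumannAlgebra.mem_commutant_iff]
  intro t ht
  exact ((mem_comm.1 ht) x hx).1.symm

theorem star_subset_gen {S : Set (H →L[ℂ] H)} {x : H →L[ℂ] H} (hx : x ∈ S) :
    star x ∈ gen S := star_mem (subset_gen hx)

/-- `x ∈ S''` commutes with every operator commuting with `S ∪ S*`. -/
theorem gen_comm {S : Set (H →L[ℂ] H)} {x t : H →L[ℂ] H} (hx : x ∈ gen S)
    (ht : ∀ y ∈ S, y * t = t * y ∧ star y * t = t * star y) : t * x = x * t := by
  unfold gen at hx
  rw [VonNeumannAlgebra.mem_commutant_iff] at hx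
  exact hx t (mem_comm.2 ht)

theorem mem_gen_of {S : Set (H →L[ℂ] H)} {x : H →L[ℂ] H}
    (h : ∀ t : H →L[ℂ] H, (∀ y ∈ S, y * t = t * y ∧ star y * t = t * star y) →
      t * x = x * t) : x ∈ gen S := by
  unfold gen
  rw [VonNeumannAlgebra.mem_commutant_iff]
  intro t ht
  exact h t (mem_comm.1 ht)

theorem gen_le {S : Set (H →L[ℂ] H)} {N : VonNeumannAlgebra H} (hS : ∀ y ∈ S, y ∈ N)
    {x : H →L[ℂ] H} (hx : x ∈ gen S) : x ∈ N := by
  apply mem_of_commutant
  intro t ht
  exact gen_comm hx (fun y hy => ⟨ht y (hS y hy), ht (star y) (star_mem (hS y hy))⟩)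

/-! ### Trace vectors -/

namespace IsTraceVector

variable {N : VonNeumannAlgebra H} {ξ : H}

theorem tr_one (h : IsTraceVector N ξ) : tr ξ (1 : H →L[ℂ] H) = 1 := by
  simp [tr, inner_self_eq_norm_sq_to_K, h.norm_eq]

/-- `‖x* ξ‖ = ‖x ξ‖`. -/
theorem norm_star (h : IsTraceVector N ξ) {x : H →L[ℂ] H} (hx : x ∈ N) :
    ‖star x ξ‖ = ‖x ξ‖ := by
  have h1 := h.trace (star x) (star_mem hx) x hx
  have h2 : tr ξ (x * star x) = ((‖star x ξ‖ ^ 2 : ℝ) : ℂ) := by
    have := tr_star_mul_self ξ (star x)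
    rwa [star_star] at this
  rw [tr_star_mul_self, h2] at h1
  have h3 : ‖x ξ‖ ^ 2 = ‖star x ξ‖ ^ 2 := by exact_mod_cast h1
  have h4 := (pow_left_inj₀ (norm_nonneg _) (norm_nonneg _) two_ne_zero).1 h3
  exact h4.symm

/-- `‖x a ξ‖ ≤ ‖a‖ ‖x ξ‖` for `x, a ∈ N`. -/
theorem norm_mul_right (h : IsTraceVector N ξ) {x a : H →L[ℂ] H} (hx : x ∈ N) (ha : a ∈ N) :
    ‖(x * a) ξ‖ ≤ ‖a‖ * ‖x ξ‖ := by
  rw [← h.norm_star (mul_mem hx ha), star_mul]
  refine (norm_mul_left ξ (star a) (star x)).trans ?_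
  rw [_root_.norm_star, h.norm_star hx]

/-- The trace vector is separating. -/
theorem eq_zero (h : IsTraceVector N ξ) {x : H →L[ℂ] H} (hx : x ∈ N) (h0 : x ξ = 0) :
    x = 0 := by
  ext η
  rw [ContinuousLinearMap.zero_apply, ← norm_le_zero_iff]
  refine le_of_forall_pos_le_add (fun ε hε => ?_)
  obtain ⟨y, hy, hyε⟩ := h.cyclic η (ε / (‖x‖ + 1)) (by positivity)
  have h1 : x (y ξ) = 0 := by
    have h2 := h.norm_mul_right hx hy
    rw [h0, norm_zero, mul_zero] at h2
    exact norm_le_zero_iff.1 h2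
  have h2 : x η = x (η - y ξ) := by rw [map_sub, h1, sub_zero]
  rw [h2, zero_add]
  refine (x.le_opNorm _).trans ?_
  have h3 : ‖x‖ * ‖η - y ξ‖ ≤ (‖x‖ + 1) * (ε / (‖x‖ + 1)) := by
    apply mul_le_mul (by linarith) hyε.le (norm_nonneg _) (by positivity)
  refine h3.trans (le_of_eq ?_)
  field_simp

theorem ne_zero_apply (h : IsTraceVector N ξ) {x : H →L[ℂ] H} (hx : x ∈ N) (h0 : x ≠ 0) :
    x ξ ≠ 0 := fun hc => h0 (h.eq_zero hx hc)

theorem norm_pos_apply (h : IsTraceVector N ξ) {x : H →L[ℂ] H} (hx : x ∈ N) (h0 : x ≠ 0) :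
    0 < ‖x ξ‖ := norm_pos_iff.2 (h.ne_zero_apply hx h0)

/-- The trace is cyclic on three factors. -/
theorem trace₃ (h : IsTraceVector N ξ) {x y z : H →L[ℂ] H} (hx : x ∈ N) (hy : y ∈ N)
    (hz : z ∈ N) : tr ξ (x * y * z) = tr ξ (z * x * y) := by
  rw [h.trace (x * y) (mul_mem hx hy) z hz, mul_assoc]

/-- `|τ(x y)| ≤ ‖x ξ‖ ‖y ξ‖`. -/
theorem norm_tr_mul_le (h : IsTraceVector N ξ) {x y : H →L[ℂ] H} (hx : x ∈ N) (_hy : y ∈ N) :
    ‖tr ξ (x * y)‖ ≤ ‖x ξ‖ * ‖y ξ‖ := by
  have h1 := norm_tr_star_mul_le ξ (star x) y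
  rwa [star_star, h.norm_star hx] at h1

/-- The commutator with `star y`. -/
theorem norm_comm_star (h : IsTraceVector N ξ) {x y : H →L[ℂ] H} (hx : x ∈ N) (hy : y ∈ N) :
    ‖(star x * y - y * star x) ξ‖ = ‖(x * star y - star y * x) ξ‖ := by
  have h1 : star x * y - y * star x = -star (x * star y - star y * x) := by
    simp [star_sub, star_mul, star_star]
  rw [h1, ContinuousLinearMap.neg_apply, norm_neg, h.norm_star]
  exact sub_mem (mul_mem hx (star_mem hy)) (mul_mem (star_mem hy) hx)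

/-- Initial and final projection of a partial isometry have the same trace. -/
theorem norm_eq_of_equiv (h : IsTraceVector N ξ) {v e f : H →L[ℂ] H} (hv : v ∈ N)
    (he : star v * v = e) (hf : v * star v = f) (hpe : IsStarProjection e)
    (hpf : IsStarProjection f) : ‖e ξ‖ = ‖f ξ‖ := by
  have h1 := h.trace (star v) (star_mem hv) v hv
  rw [he, hf, tr_proj ξ hpe, tr_proj ξ hpf] at h1
  have h3 : ‖e ξ‖ ^ 2 = ‖f ξ‖ ^ 2 := by exact_mod_cast h1
  exact (pow_left_inj₀ (norm_nonneg _) (norm_nonneg _) two_ne_zero).1 h3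

end IsTraceVector

/-! ### Projections -/

theorem proj_mul_comm_of_le {e f : H →L[ℂ] H} (he : IsStarProjection e)
    (hf : IsStarProjection f) (h : f * e = e) : e * f = e := by
  have h1 := congrArg star h
  rwa [star_mul, he.isSelfAdjoint.star_eq, hf.isSelfAdjoint.star_eq] at h1

theorem proj_sub {e f : H →L[ℂ] H} (he : IsStarProjection e)
    (hf : IsStarProjection f) (h : f * e = e) : IsStarProjection (f - e) :=
  he.sub_of_mul_eq_right hf h

/-- Pythagoras for a subprojection. -/
theorem norm_sq_sub_proj (ξ : H) {e f : H →L[ℂ] H} (he : IsStarProjection e)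
    (hf : IsStarProjection f) (h : f * e = e) :
    ‖(f - e) ξ‖ ^ 2 = ‖f ξ‖ ^ 2 - ‖e ξ‖ ^ 2 := by
  have h1 := tr_proj ξ (proj_sub he hf h)
  rw [tr_sub, tr_proj ξ hf, tr_proj ξ he] at h1
  exact_mod_cast h1.symm

/-- `v` is a partial isometry: `v v* v = v`. -/
theorem pi_mul_star_mul {v : H →L[ℂ] H} (h : IsStarProjection (star v * v)) :
    v * (star v * v) = v := by
  have h1 : star (v * (star v * v) - v) * (v * (star v * v) - v) = 0 := by
    have e := h.isIdempotentElem.eq
    have e2 : star v * v * (star v * v) * (star v * v) = star v * v := by rw [e, e]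
    simp only [star_sub, star_mul, star_star, sub_mul, mul_sub]
    have a1 : star v * v * star v * (v * (star v * v)) = star v * v := by
      calc star v * v * star v * (v * (star v * v))
          = star v * v * (star v * v) * (star v * v) := by simp only [mul_assoc]
        _ = star v * v := e2
    have a2 : star v * (v * (star v * v)) = star v * v := by
      calc star v * (v * (star v * v)) = star v * v * (star v * v) := by simp only [mul_assoc]
        _ = star v * v := e
    have a3 : star v * v * star v * v = star v * v := by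
      calc star v * v * star v * v = star v * v * (star v * v) := by simp only [mul_assoc]
        _ = star v * v := e
    rw [a1, a2, a3]
    simp
  have h2 := CStarRing.star_mul_self_eq_zero_iff (v * (star v * v) - v) |>.1 h1
  exact sub_eq_zero.1 h2

theorem proj_mul_star {v : H →L[ℂ] H} (h : IsStarProjection (star v * v)) :
    IsStarProjection (v * star v) := by
  refine ⟨?_, ?_⟩
  · show v * star v * (v * star v) = v * star v
    calc v * star v * (v * star v) = v * (star v * v) * star v := by simp only [mul_assoc]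
      _ = v * star v := by rw [pi_mul_star_mul h]
  · show star (v * star v) = v * star v
    simp

/-! ### Corners -/

theorem corner_left {N : VonNeumannAlgebra H} {p x : H →L[ℂ] H} (hp : IsStarProjection p)
    (hx : x ∈ corner N p) : p * x = x := by
  calc p * x = p * (p * x * p) := by rw [hx.2]
    _ = p * p * x * p := by simp only [mul_assoc]
    _ = x := by rw [hp.isIdempotentElem.eq, hx.2]

theorem corner_right {N : VonNeumannAlgebra H} {p x : H →L[ℂ] H} (hp : IsStarProjection p)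
    (hx : x ∈ corner N p) : x * p = x := by
  calc x * p = p * x * p * p := by rw [hx.2]
    _ = p * x * (p * p) := by simp only [mul_assoc]
    _ = x := by rw [hp.isIdempotentElem.eq, hx.2]

theorem mem_corner {N : VonNeumannAlgebra H} {p x : H →L[ℂ] H} (hx : x ∈ N)
    (h1 : p * x = x) (h2 : x * p = x) : x ∈ corner N p := ⟨hx, by rw [h1, h2]⟩

theorem corner_mk {N : VonNeumannAlgebra H} {p x : H →L[ℂ] H} (hpN : p ∈ N)
    (hp : IsStarProjection p) (hx : x ∈ N) : p * x * p ∈ corner N p := by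
  refine ⟨mul_mem (mul_mem hpN hx) hpN, ?_⟩
  have e := hp.isIdempotentElem.eq
  calc p * (p * x * p) * p = (p * p) * x * (p * p) := by simp only [mul_assoc]
    _ = p * x * p := by rw [e]

theorem corner_add {N : VonNeumannAlgebra H} {p x y : H →L[ℂ] H}
    (hx : x ∈ corner N p) (hy : y ∈ corner N p) : x + y ∈ corner N p :=
  ⟨add_mem hx.1 hy.1, by rw [mul_add, add_mul, hx.2, hy.2]⟩

theorem corner_sub {N : VonNeumannAlgebra H} {p x y : H →L[ℂ] H}
    (hx : x ∈ corner N p) (hy : y ∈ corner N p) : x - y ∈ corner N p :=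
  ⟨sub_mem hx.1 hy.1, by rw [mul_sub, sub_mul, hx.2, hy.2]⟩

theorem corner_smul {N : VonNeumannAlgebra H} {p x : H →L[ℂ] H} (c : ℂ)
    (hx : x ∈ corner N p) : c • x ∈ corner N p :=
  ⟨smul_mem' N c hx.1, by rw [mul_smul_comm, smul_mul_assoc, hx.2]⟩

theorem corner_mul {N : VonNeumannAlgebra H} {p x y : H →L[ℂ] H} (hp : IsStarProjection p)
    (hx : x ∈ corner N p) (hy : y ∈ corner N p) : x * y ∈ corner N p :=
  mem_corner (mul_mem hx.1 hy.1) (by rw [← mul_assoc, corner_left hp hx])
    (by rw [mul_assoc, corner_right hp hy])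

theorem corner_star {N : VonNeumannAlgebra H} {p x : H →L[ℂ] H} (hp : IsStarProjection p)
    (hx : x ∈ corner N p) : star x ∈ corner N p := by
  refine ⟨star_mem hx.1, ?_⟩
  have h1 := congrArg star hx.2
  simp only [star_mul, hp.isSelfAdjoint.star_eq] at h1
  rw [mul_assoc]
  exact h1

theorem proj_mem_corner {N : VonNeumannAlgebra H} {p e : H →L[ℂ] H}
    (hp : IsStarProjection p) (heN : e ∈ N) (he : IsStarProjection e) (h : p * e = e) :
    e ∈ corner N p := mem_corner heN h (proj_mul_comm_of_le he hp h)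

theorem p_mem_corner {N : VonNeumannAlgebra H} {p : H →L[ℂ] H} (hpN : p ∈ N)
    (hp : IsStarProjection p) : p ∈ corner N p :=
  mem_corner hpN hp.isIdempotentElem.eq hp.isIdempotentElem.eq

/-! ### Isomorphisms of corners -/

namespace CornerIso

variable {N : VonNeumannAlgebra H} {p q : H →L[ℂ] H} {θ : (H →L[ℂ] H) → (H →L[ℂ] H)}

theorem zero (h : CornerIso N p q θ) : θ 0 = 0 := by
  have h0 : (0 : H →L[ℂ] H) ∈ corner N p := ⟨zero_mem N, by simp⟩
  have h1 := h.smul 0 0 h0
  simpa using h1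

theorem sub (h : CornerIso N p q θ) {x y : H →L[ℂ] H} (hx : x ∈ corner N p)
    (hy : y ∈ corner N p) : θ (x - y) = θ x - θ y := by
  have h1 : x - y = x + (-1 : ℂ) • y := by simp [sub_eq_add_neg]
  rw [h1, h.add x hx _ (corner_smul _ hy), h.smul _ y hy]
  simp [sub_eq_add_neg]

/-- `θ(p) = q`. -/
theorem map_unit (h : CornerIso N p q θ) (hpN : p ∈ N) (hp : IsStarProjection p)
    (hqN : q ∈ N) (hq : IsStarProjection q) : θ p = q := by
  have hpc := p_mem_corner hpN hp
  obtain ⟨x, hx, hxq⟩ := h.surj q (p_mem_corner hqN hq)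
  have h1 : θ p * q = q := by
    rw [← hxq, ← h.mul p hpc x hx, corner_left hp hx]
  have h2 := h.maps p hpc
  rw [← corner_right hq h2, h1]

theorem map_proj (h : CornerIso N p q θ) (hp : IsStarProjection p) {e : H →L[ℂ] H}
    (heN : e ∈ N) (he : IsStarProjection e) (hle : p * e = e) :
    IsStarProjection (θ e) := by
  have hc := proj_mem_corner hp heN he hle
  refine ⟨?_, ?_⟩
  · show θ e * θ e = θ e
    rw [← h.mul e hc e hc, he.isIdempotentElem.eq]
  · show Star.star (θ e) = θ e
    rw [← h.star e hc, he.isSelfAdjoint.star_eq]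

theorem map_eq_zero (h : CornerIso N p q θ) {x : H →L[ℂ] H} (hx : x ∈ corner N p)
    (h0 : θ x = 0) : x = 0 :=
  h.inj x hx 0 ⟨zero_mem N, by simp⟩ (by rw [h0, h.zero])

end CornerIso

/-- The range projection of an element of a von Neumann algebra. -/
theorem exists_rangeProj (M : VonNeumannAlgebra H) {x : H →L[ℂ] H} (hx : x ∈ M) :
    ∃ r ∈ M, IsStarProjection r ∧ r * x = x ∧
      (∀ y : H →L[ℂ] H, y * x = 0 → y * r = 0) ∧
      (∀ y : H →L[ℂ] H, y * x = x * y → star y * x = x * star y → y * r = r * y) := by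
  set K : Submodule ℂ H := (LinearMap.range x.toLinearMap).topologicalClosure with hK
  have : CompleteSpace K :=
    (Submodule.isClosed_topologicalClosure _).completeSpace_coe
  have hcl : ∀ (y : H →L[ℂ] H) (L : Submodule ℂ H), IsClosed (L : Set H) →
      (∀ ζ : H, y (x ζ) ∈ L) → ∀ η ∈ K, y η ∈ L := by
    intro y L hL hy η hη
    have h1 : K ≤ L.comap y.toLinearMap := by
      apply Submodule.topologicalClosure_minimal
      · rintro _ ⟨ζ, rfl⟩
        exact hy ζ
      · exact hL.preimage y.continuous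
    exact h1 hη
  have hr : IsStarProjection K.starProjection := isStarProjection_starProjection
  have hrange : ∀ η : H, K.starProjection η ∈ K := fun η => Submodule.starProjection_apply_mem K η
  have hfix : ∀ η ∈ K, K.starProjection η = η := fun η hη =>
    Submodule.starProjection_eq_self_iff.2 hη
  have hxK : ∀ ζ, x ζ ∈ K := fun ζ =>
    Submodule.le_topologicalClosure _ ⟨ζ, rfl⟩
  have hcomm : ∀ y : H →L[ℂ] H, y * x = x * y → star y * x = x * star y →
      y * K.starProjection = K.starProjection * y := by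
    intro y h1 h2
    have ha : ∀ z : H →L[ℂ] H, z * x = x * z →
        K.starProjection * z * K.starProjection = z * K.starProjection := by
      intro z hz
      ext η
      have h3 : z (K.starProjection η) ∈ K := by
        apply hcl z K (Submodule.isClosed_topologicalClosure _) _ _ (hrange η)
        intro ζ
        have h4 : z (x ζ) = x (z ζ) := by
          have := congrArg (fun T : H →L[ℂ] H => T ζ) hz
          simpa using this
        rw [h4]
        exact hxK _
      simpa using hfix _ h3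
    have h3 := ha y h1
    have h4 := congrArg star (ha (star y) h2)
    simp only [star_mul, star_star, hr.isSelfAdjoint.star_eq] at h4
    rw [← h3, mul_assoc, h4]
  refine ⟨K.starProjection, ?_, hr, ?_, ?_, hcomm⟩
  · apply mem_of_commutant
    intro t ht
    exact hcomm t (ht x hx).symm ((commutes_star ht) x hx).symm
  · ext η
    simpa using hfix _ (hxK η)
  · intro y hy
    ext η
    have h1 : y (K.starProjection η) ∈ (⊥ : Submodule ℂ H) := by
      apply hcl y ⊥ _ _ _ (hrange η)
      · simp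
      · intro ζ
        have := congrArg (fun T : H →L[ℂ] H => T ζ) hy
        simpa using this
    simpa using h1

end

end Pool.Agent.H85.BC
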