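import Pool.Agent.H85.BC.Defs

/-!
# Bicommutant-good II₁ factors: target statements of the rows (board bcg_modules)
-/

set_option autoImplicit false

open scoped InnerProductSpace Topology
open Filter

namespace Pool.Agent.H85.BC

section
variable (H : Type) [NormedAddCommGroup H] [InnerProductSpace ℂ H] [CompleteSpace H]

/-! ### Group A: limits, spectral projections, exhaustion -/

/-- Weak limits along an ultrafilter. -/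
def T_WL : Prop := ∀ (N : VonNeumannAlgebra H) (ι : Type) (U : Ultrafilter ι)
  (x : ι → (H →L[ℂ] H)) (C : ℝ), (∀ i, x i ∈ N) → (∀ i, ‖x i‖ ≤ C) →
  ∃ z ∈ N, ‖z‖ ≤ C ∧ ∀ η ζ : H,
    Tendsto (fun i => inner ℂ η (x i ζ)) (U : Filter ι) (𝓝 (inner ℂ η (z ζ)))

/-- Strong limits of bounded sequences that are Cauchy in `2`-norm. -/
def T_SL : Prop := ∀ (N : VonNeumannAlgebra H) (ξ : H), IsTraceVector N ξ →
  ∀ (x : ℕ → (H →L[ℂ] H)) (C : ℝ), (∀ n, x n ∈ N) → (∀ n, ‖x n‖ ≤ C) →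
  CauchySeq (fun n => x n ξ) →
  ∃ z ∈ N, ‖z‖ ≤ C ∧ ∀ η : H, Tendsto (fun n => x n η) atTop (𝓝 (z η))

/-- Spectral projections `1_{(s, ∞)}(a)` of a self-adjoint element. -/
def T_SP : Prop := ∀ (M : VonNeumannAlgebra H), ∀ a ∈ M, IsSelfAdjoint a → ∀ s : ℝ,
  ∃ E ∈ M, IsStarProjection E ∧ (∀ b : H →L[ℂ] H, b * a = a * b → b * E = E * b) ∧
    (∀ ζ : H, E ζ = ζ → s * ‖ζ‖ ^ 2 ≤ (inner ℂ ζ (a ζ) : ℂ).re) ∧
    (∀ ζ : H, E ζ = 0 → (inner ℂ ζ (a ζ) : ℂ).re ≤ s * ‖ζ‖ ^ 2)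

/-- `w` extends the partial isometry `v`. -/
def Ext {H : Type} [NormedAddCommGroup H] [InnerProductSpace ℂ H] [CompleteSpace H]
    (v w : H →L[ℂ] H) : Prop := w * (star v * v) = v

/-- Exhaustion: a set of partial isometries of `N`, closed under limits of increasing
sequences, has a maximal element. -/
def T_MAXV : Prop := ∀ (N : VonNeumannAlgebra H) (ξ : H), IsTraceVector N ξ →
  ∀ S : Set (H →L[ℂ] H), S.Nonempty → (∀ v ∈ S, v ∈ N ∧ IsStarProjection (star v * v)) →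
  (∀ (v : ℕ → (H →L[ℂ] H)) (w : H →L[ℂ] H), (∀ n, v n ∈ S) → (∀ n, Ext (v n) (v (n + 1))) →
    w ∈ N → IsStarProjection (star w * w) → (∀ n, Ext (v n) w) →
    (∀ η : H, Tendsto (fun n => v n η) atTop (𝓝 (w η))) → w ∈ S) →
  ∃ m ∈ S, ∀ v ∈ S, Ext m v → v = m

/-! ### Group B: projections in II₁ factors -/

/-- In a factor corner any two nonzero projections are connected. -/
def T_ENF : Prop := ∀ (M : VonNeumannAlgebra H), ∀ p ∈ M, IsStarProjection p →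
  FactorCorner M p → ∀ e ∈ M, IsStarProjection e → p * e = e → e ≠ 0 →
  ∀ f ∈ M, IsStarProjection f → p * f = f → f ≠ 0 → ∃ x ∈ M, e * x * f ≠ 0

/-- A nonzero element gives a nonzero partial isometry. -/
def T_PI : Prop := ∀ (M : VonNeumannAlgebra H), ∀ x ∈ M, x ≠ 0 →
  ∃ v ∈ M, v ≠ 0 ∧ IsStarProjection (star v * v) ∧
    (∀ e : H →L[ℂ] H, e * x = x → e * v = v) ∧
    (∀ f : H →L[ℂ] H, IsStarProjection f → x * f = x → v * f = v)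

/-- If `f` has no proper subprojection in `M` then `f M f` consists of scalars. -/
def T_SCAL : Prop := ∀ (M : VonNeumannAlgebra H), ∀ f ∈ M, IsStarProjection f →
  (∀ e ∈ M, IsStarProjection e → f * e = e → e = 0 ∨ e = f) →
  ∀ x ∈ M, ∃ c : ℂ, f * x * f = c • f

/-- Matrix units from a minimal projection. -/
def T_MINP : Prop := ∀ (N : VonNeumannAlgebra H) (ξ : H), IsTraceVector N ξ →
  ∀ M : VonNeumannAlgebra H, (∀ x ∈ M, x ∈ N) → ∀ p ∈ M, IsStarProjection p →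
  FactorCorner M p → ∀ f ∈ M, IsStarProjection f → p * f = f → f ≠ 0 →
  (∀ x ∈ M, ∃ c : ℂ, f * x * f = c • f) →
  ∃ (n : ℕ) (v : Fin n → (H →L[ℂ] H)), (∀ i, v i ∈ M ∧ star (v i) * v i = f) ∧
    ∑ i, v i * star (v i) = p

/-- A II₁ factor has no minimal projection. -/
def T_NM : Prop := ∀ (N : VonNeumannAlgebra H) (ξ : H), IsIIOneFactor N ξ → NoMin N 1

/-- Subprojections of every trace. -/
def T_HALF : Prop := ∀ (N : VonNeumannAlgebra H) (ξ : H), IsTraceVector N ξ →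
  ∀ M : VonNeumannAlgebra H, (∀ x ∈ M, x ∈ N) → ∀ p ∈ M, IsStarProjection p → NoMin M p →
  ∀ f ∈ M, IsStarProjection f → p * f = f → ∀ s : ℝ, 0 ≤ s → s ≤ ‖f ξ‖ ^ 2 →
  ∃ e ∈ M, IsStarProjection e ∧ f * e = e ∧ ‖e ξ‖ ^ 2 = s

/-- Comparison of projections in a finite factor. -/
def T_CMP : Prop := ∀ (N : VonNeumannAlgebra H) (ξ : H), IsTraceVector N ξ → IsFactor N →
  ∀ e ∈ N, IsStarProjection e → ∀ f ∈ N, IsStarProjection f → ‖e ξ‖ ≤ ‖f ξ‖ →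
  ∃ v ∈ N, star v * v = e ∧ f * v = v

/-- Projections of equal trace are equivalent. -/
def T_EQV : Prop := ∀ (N : VonNeumannAlgebra H) (ξ : H), IsTraceVector N ξ → IsFactor N →
  ∀ e ∈ N, IsStarProjection e → ∀ f ∈ N, IsStarProjection f → ‖e ξ‖ = ‖f ξ‖ →
  ∃ v ∈ N, star v * v = e ∧ v * star v = f

/-- Orthogonal decompositions with prescribed traces. -/
def T_PART : Prop := ∀ (N : VonNeumannAlgebra H) (ξ : H), IsIIOneFactor N ξ →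
  ∀ f ∈ N, IsStarProjection f → ∀ (n : ℕ) (t : Fin n → ℝ), (∀ i, 0 ≤ t i) →
  ∑ i, t i = ‖f ξ‖ ^ 2 →
  ∃ e : Fin n → (H →L[ℂ] H), (∀ i, e i ∈ N ∧ IsStarProjection (e i) ∧ ‖e i ξ‖ ^ 2 = t i) ∧
    (∀ i j, i ≠ j → e i * e j = 0) ∧ ∑ i, e i = f

/-- Every projection is a finite sum of projections equivalent to subprojections of a given
nonzero projection. -/
def T_COV : Prop := ∀ (N : VonNeumannAlgebra H) (ξ : H), IsIIOneFactor N ξ →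
  ∀ e ∈ N, IsStarProjection e → e ≠ 0 → ∀ f ∈ N, IsStarProjection f →
  ∃ (n : ℕ) (c : Fin n → (H →L[ℂ] H)), (∀ i, c i ∈ N ∧ c i * e = c i ∧
    IsStarProjection (star (c i) * c i)) ∧ ∑ i, c i * star (c i) = f

/-! ### Group C: from non-Gamma to the uniform form -/

/-- Exponentials `exp(i s a)`. -/
def T_EXP : Prop := ∀ (N : VonNeumannAlgebra H) (ξ : H), IsTraceVector N ξ →
  ∀ a ∈ N, IsSelfAdjoint a → ‖a‖ ≤ 1 → ∀ s : ℝ, 0 < s → s ≤ 1 →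
  ∃ w ∈ N, star w * w = 1 ∧ w * star w = 1 ∧ ‖w - 1 - (Complex.I * (s : ℂ)) • a‖ ≤ s ^ 2 ∧
    (∀ y ∈ N, ‖(w * y - y * w) ξ‖ ≤ 3 * s * ‖(a * y - y * a) ξ‖) ∧
    (∀ p : H →L[ℂ] H, p * a = a → a * p = a → (w - 1) * p = w - 1 ∧ p * (w - 1) = w - 1)

/-- A weak limit of elements asymptotically commuting with `y` commutes with `y`. -/
def T_WC : Prop := ∀ (N : VonNeumannAlgebra H) (ξ : H), IsTraceVector N ξ →
  ∀ (ι : Type) (U : Ultrafilter ι) (x : ι → (H →L[ℂ] H)), (∀ i, x i ∈ N) →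
  ∀ z ∈ N, (∀ η ζ : H, Tendsto (fun i => inner ℂ η (x i ζ)) (U : Filter ι)
    (𝓝 (inner ℂ η (z ζ)))) →
  ∀ y ∈ N, Tendsto (fun i => ‖(x i * y - y * x i) ξ‖) (U : Filter ι) (𝓝 0) →
  z * y = y * z

/-- The hypotheses on a set `C` and a projection `p`: `C` is a self-adjoint subset of `N`,
`p` is a nonzero projection of `N` commuting with `C` and `C' ∩ pNp` consists of scalars. -/
structure Irr {H : Type} [NormedAddCommGroup H] [InnerProductSpace ℂ H] [CompleteSpace H]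
    (N : VonNeumannAlgebra H) (C : Set (H →L[ℂ] H)) (p : H →L[ℂ] H) : Prop where
  sub : ∀ y ∈ C, y ∈ N
  star_mem : ∀ y ∈ C, star y ∈ C
  mem : p ∈ N
  proj : IsStarProjection p
  ne_zero : p ≠ 0
  comm : ∀ y ∈ C, p * y = y * p
  irr : ∀ x ∈ N, p * x * p = x → (∀ y ∈ C, x * y = y * x) → ∃ c : ℂ, x = c • p

/-- Weak limits in `pNp` of elements asymptotically commuting with `C` are scalars. -/
def T_SCL : Prop := ∀ (N : VonNeumannAlgebra H) (ξ : H), IsTraceVector N ξ →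
  ∀ (C : Set (H →L[ℂ] H)) (p : H →L[ℂ] H), Irr N C p →
  ∀ (ι : Type) (U : Ultrafilter ι) (x : ι → (H →L[ℂ] H)) (B : ℝ), (∀ i, x i ∈ N) →
  (∀ i, p * x i * p = x i) → (∀ i, ‖x i‖ ≤ B) →
  (∀ y ∈ C, Tendsto (fun i => ‖(x i * y - y * x i) ξ‖) (U : Filter ι) (𝓝 0)) →
  ∀ y ∈ N, Tendsto (fun i => tr ξ (y * x i) - tr ξ (y * p) * (tr ξ (x i) / tr ξ p))
    (U : Filter ι) (𝓝 0)

/-- Products of asymptotically independent unitaries have small trace. -/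
def T_PRD : Prop := ∀ (N : VonNeumannAlgebra H) (ξ : H), IsTraceVector N ξ →
  ∀ p ∈ N, IsStarProjection p → p ≠ 0 →
  ∀ (ι : Type) (U : Ultrafilter ι) (w : ι → (H →L[ℂ] H)),
  (∀ i, w i ∈ N ∧ star (w i) * w i = 1 ∧ w i * star (w i) = 1 ∧ w i * (1 - p) = 1 - p) →
  ∀ ρ : ℝ, 0 ≤ ρ → ρ < 1 →
  (∀ᶠ i in (U : Filter ι), ‖tr ξ (w i * p)‖ ≤ ρ * ‖p ξ‖ ^ 2) →
  (∀ y ∈ N, Tendsto (fun i => tr ξ (y * (w i * p)) - tr ξ (y * p) * (tr ξ (w i * p) / tr ξ p))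
    (U : Filter ι) (𝓝 0)) →
  ∀ G : Finset (H →L[ℂ] H), (∀ g ∈ G, g ∈ N) →
  (∀ g ∈ G, Tendsto (fun i => ‖(w i * g - g * w i) ξ‖) (U : Filter ι) (𝓝 0)) →
  ∀ ε : ℝ, 0 < ε → ∃ W ∈ N, star W * W = 1 ∧ W * star W = 1 ∧ W * (1 - p) = 1 - p ∧
    ‖tr ξ (W * p)‖ < ε ∧ ∀ g ∈ G, ‖(W * g - g * W) ξ‖ < ε

/-- Nontrivial asymptotically commuting nets produce asymptotically commuting unitaries of
small trace. -/
def T_GEN : Prop := ∀ (N : VonNeumannAlgebra H) (ξ : H), IsTraceVector N ξ →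
  ∀ (C : Set (H →L[ℂ] H)) (p : H →L[ℂ] H), Irr N C p →
  ∀ (ι : Type) (U : Ultrafilter ι) (x : ι → (H →L[ℂ] H)), (∀ i, x i ∈ N) →
  (∀ i, p * x i * p = x i) → (∀ i, ‖x i‖ ≤ 1) →
  (∀ y ∈ C, Tendsto (fun i => ‖(x i * y - y * x i) ξ‖) (U : Filter ι) (𝓝 0)) →
  (¬ Tendsto (fun i => ‖(x i - (tr ξ (x i) / tr ξ p) • p) ξ‖) (U : Filter ι) (𝓝 0)) →
  ∀ G : Finset (H →L[ℂ] H), (∀ g ∈ G, g ∈ C) → ∀ ε : ℝ, 0 < ε →
  ∃ W ∈ N, star W * W = 1 ∧ W * star W = 1 ∧ W * (1 - p) = 1 - p ∧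
    ‖tr ξ (W * p)‖ < ε ∧ ∀ g ∈ G, ‖(W * g - g * W) ξ‖ < ε

/-- If the uniform form fails, there are almost commuting unitaries of almost zero trace. -/
def T_APX : Prop := ∀ (N : VonNeumannAlgebra H) (ξ : H), IsTraceVector N ξ → IsFactor N →
  ¬ UG N ξ → ∀ F : Finset (H →L[ℂ] H), (∀ y ∈ F, y ∈ N) → ∀ ε : ℝ, 0 < ε →
  ∃ u ∈ N, star u * u = 1 ∧ u * star u = 1 ∧ ‖tr ξ u‖ < ε ∧
    ∀ y ∈ F, ‖(u * y - y * u) ξ‖ < ε

/-- A unitary of small trace has two large approximate spectral projections whose values are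
not close to each other. -/
def T_ARC : Prop := ∃ κ : ℝ, 0 < κ ∧ ∀ (N : VonNeumannAlgebra H) (ξ : H),
  IsTraceVector N ξ → ∀ u ∈ N, star u * u = 1 → u * star u = 1 → ‖tr ξ u‖ ≤ κ →
  ∃ l₁ l₂ : ℂ, ‖l₁‖ = 1 ∧ ‖l₂‖ = 1 ∧ ‖l₁ + l₂‖ ≤ 3 / 2 ∧
  ∃ r₁ ∈ N, ∃ r₂ ∈ N, IsStarProjection r₁ ∧ IsStarProjection r₂ ∧ r₁ * r₂ = 0 ∧
    κ ≤ ‖r₁ ξ‖ ^ 2 ∧ κ ≤ ‖r₂ ξ‖ ^ 2 ∧ ‖(u - l₁ • 1) * r₁‖ ≤ 1 / 100 ∧
    ‖(u - l₂ • 1) * r₂‖ ≤ 1 / 100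

/-- Values of `τ(b z)` over the unitaries `z` of a corner. -/
def T_PAU : Prop := ∀ (N : VonNeumannAlgebra H) (ξ : H), IsIIOneFactor N ξ →
  ∀ q ∈ N, IsStarProjection q → ∀ b ∈ N, q * b * q = b → ∀ β : ℂ, ‖β‖ ≤ ‖tr ξ b‖ →
  ∃ z ∈ N, star z * z = q ∧ z * star z = q ∧ q * z * q = z ∧ tr ξ (b * z) = β

/-- A unitary of small trace is close to a unitary of trace zero. -/
def T_ZAP : Prop := ∀ (N : VonNeumannAlgebra H) (ξ : H), IsIIOneFactor N ξ →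
  ∀ ε : ℝ, 0 < ε → ∃ η : ℝ, 0 < η ∧ ∀ u ∈ N, star u * u = 1 → u * star u = 1 →
  ‖tr ξ u‖ < η → ∃ u' ∈ N, star u' * u' = 1 ∧ u' * star u' = 1 ∧ tr ξ u' = 0 ∧
    ‖(u - u') ξ‖ < ε

/-- Non-Gamma implies the uniform form. -/
def T_UG : Prop := ∀ (N : VonNeumannAlgebra H) (ξ : H), IsIIOneFactor N ξ →
  ¬ HasGamma N ξ → UG N ξ

/-! ### Group D: finite index implies w-spectral gap -/

/-- Cauchy-Schwarz for `Φ(x) = ∑ m_a x m_a*`. -/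
def T_BES : Prop := ∀ (N : VonNeumannAlgebra H) (ξ : H), IsTraceVector N ξ →
  ∀ (k K : ℕ) (m : Fin k → (H →L[ℂ] H)) (y : Fin K → (H →L[ℂ] H)), (∀ a, m a ∈ N) →
  (∀ i, y i ∈ N) →
  (∑ i, ∑ a, ‖(m a * y i) ξ‖ ^ 2) ^ 2 ≤
    k * ∑ i, ∑ j, ‖(∑ a, m a * (y i * star (y j)) * star (m a)) ξ‖ ^ 2

/-- A finite quasi-basis of `N` over the subset `P`. -/
structure QBasis {H : Type} [NormedAddCommGroup H] [InnerProductSpace ℂ H] [CompleteSpace H]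
    (N : VonNeumannAlgebra H) (P : Set (H →L[ℂ] H)) (E : (H →L[ℂ] H) → (H →L[ℂ] H))
    (k : ℕ) (m : Fin k → (H →L[ℂ] H)) : Prop where
  sub : ∀ y ∈ P, y ∈ N
  star_mem : ∀ y ∈ P, star y ∈ P
  mem : ∀ j, m j ∈ N
  exp : ∀ x ∈ N, E x ∈ P
  left : ∀ x ∈ N, x = ∑ j, m j * E (star (m j) * x)
  right : ∀ x ∈ N, x = ∑ j, E (x * m j) * star (m j)

/-- The commutator of `Φ(x)` with an element of `N`. -/
def T_COM : Prop := ∀ (N : VonNeumannAlgebra H) (P : Set (H →L[ℂ] H))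
  (E : (H →L[ℂ] H) → (H →L[ℂ] H)) (k : ℕ) (m : Fin k → (H →L[ℂ] H)), QBasis N P E k m →
  ∀ a ∈ N, ∀ x ∈ N,
  a * (∑ j, m j * x * star (m j)) - (∑ j, m j * x * star (m j)) * a =
    ∑ i, ∑ j, m i * (E (star (m i) * a * m j) * x - x * E (star (m i) * a * m j)) *
      star (m j)

/-- Uniform form: `Φ(x y*)` is almost scalar if `x, y` almost commute with a finite subset
of `P`. -/
def T_WU : Prop := ∀ (N : VonNeumannAlgebra H) (ξ : H), IsTraceVector N ξ → UG N ξ →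
  ∀ (P : Set (H →L[ℂ] H)) (E : (H →L[ℂ] H) → (H →L[ℂ] H)) (k : ℕ)
  (m : Fin k → (H →L[ℂ] H)), QBasis N P E k m → ∀ B ε : ℝ, 0 < ε →
  ∃ G : Finset (H →L[ℂ] H), (∀ g ∈ G, g ∈ P) ∧ ∃ δ : ℝ, 0 < δ ∧
  ∀ x ∈ N, ∀ y ∈ N, ‖x‖ ≤ B → ‖y‖ ≤ B →
  (∀ g ∈ G, ‖(x * g - g * x) ξ‖ < δ ∧ ‖(y * g - g * y) ξ‖ < δ) →
  ‖(∑ a, m a * (x * star y) * star (m a)) ξ -
    tr ξ (∑ a, m a * (x * star y) * star (m a)) • ξ‖ < ε

/-- Lower bound: `‖y‖₂` is controlled by `‖m_a y‖₂` and commutators with `P`. -/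
def T_LOW : Prop := ∀ (N : VonNeumannAlgebra H) (ξ : H), IsTraceVector N ξ →
  ∀ (P : Set (H →L[ℂ] H)) (E : (H →L[ℂ] H) → (H →L[ℂ] H)) (k : ℕ)
  (m : Fin k → (H →L[ℂ] H)), QBasis N P E k m →
  ∃ G : Finset (H →L[ℂ] H), (∀ g ∈ G, g ∈ P) ∧ ∃ C : ℝ, 0 ≤ C ∧
  ∀ y ∈ N, ‖y ξ‖ ≤ C * (∑ a, ‖(m a * y) ξ‖ + ∑ g ∈ G, ‖(y * g - g * y) ξ‖)

/-- Theorem W: a subset with a finite quasi-basis has w-spectral gap when `N` is full. -/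
def T_W : Prop := ∀ (N : VonNeumannAlgebra H) (ξ : H), IsTraceVector N ξ → UG N ξ →
  ∀ (P : Set (H →L[ℂ] H)) (E : (H →L[ℂ] H) → (H →L[ℂ] H)) (k : ℕ)
  (m : Fin k → (H →L[ℂ] H)), QBasis N P E k m →
  ∀ (U : Ultrafilter ℕ) (x : ℕ → (H →L[ℂ] H)) (C : ℝ), (∀ n, x n ∈ N) → (∀ n, ‖x n‖ ≤ C) →
  (∀ y ∈ P, Tendsto (fun n => ‖(x n * y - y * x n) ξ‖) (U : Filter ℕ) (𝓝 0)) →
  ∃ z ∈ N, (∀ y ∈ P, z * y = y * z) ∧
    Tendsto (fun n => ‖(x n - z) ξ‖) (U : Filter ℕ) (𝓝 0)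

/-- Part (i): finite index subfactors. -/
def T_FIN : Prop := ∀ (N : VonNeumannAlgebra H) (ξ : H), IsTraceVector N ξ → UG N ξ →
  ∀ U : Ultrafilter ℕ, ¬ BCGood U N ξ → ∀ P : VonNeumannAlgebra H, (∀ x ∈ P, x ∈ N) →
  IsFactor P → FiniteIndex P N ξ →
  relComm (relComm (P : Set (H →L[ℂ] H)) N) N = (P : Set (H →L[ℂ] H))

/-! ### Group E: isomorphisms between corners -/

/-- Corners of factors have trivial centre. -/
def T_CC : Prop := ∀ N : VonNeumannAlgebra H, IsFactor N → ∀ p ∈ N, IsStarProjection p →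
  FactorCorner N p

/-- Isomorphisms of corners scale the trace of projections. -/
def T_SCP : Prop := ∀ (N : VonNeumannAlgebra H) (ξ : H), IsIIOneFactor N ξ →
  ∀ p ∈ N, IsStarProjection p → ∀ q ∈ N, IsStarProjection q →
  ∀ θ : (H →L[ℂ] H) → (H →L[ℂ] H), CornerIso N p q θ →
  ∀ e ∈ N, IsStarProjection e → p * e = e →
  ‖θ e ξ‖ ^ 2 * ‖p ξ‖ ^ 2 = ‖q ξ‖ ^ 2 * ‖e ξ‖ ^ 2

/-- Self-adjoint elements of a corner are norm limits of real combinations of projections. -/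
def T_SPN : Prop := ∀ (M : VonNeumannAlgebra H), ∀ p ∈ M, IsStarProjection p →
  ∀ a ∈ corner M p, IsSelfAdjoint a → ∀ ε : ℝ, 0 < ε →
  ∃ (n : ℕ) (c : Fin n → ℝ) (e : Fin n → (H →L[ℂ] H)),
    (∀ i, e i ∈ M ∧ IsStarProjection (e i) ∧ p * e i = e i) ∧
    ‖a - ∑ i, ((c i : ℝ) : ℂ) • e i‖ ≤ ε

/-- Isomorphisms of corners scale the trace. -/
def T_SCT : Prop := ∀ (N : VonNeumannAlgebra H) (ξ : H), IsIIOneFactor N ξ →
  ∀ p ∈ N, IsStarProjection p → ∀ q ∈ N, IsStarProjection q →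
  ∀ θ : (H →L[ℂ] H) → (H →L[ℂ] H), CornerIso N p q θ →
  ∀ x ∈ corner N p, ‖θ x ξ‖ ^ 2 * ‖p ξ‖ ^ 2 = ‖q ξ‖ ^ 2 * ‖x ξ‖ ^ 2

/-- An isomorphism of corners has a nonzero bounded intertwiner on `H`. -/
def T_TZ : Prop := ∀ (N : VonNeumannAlgebra H) (ξ : H), IsTraceVector N ξ →
  ∀ p ∈ N, IsStarProjection p → ∀ q ∈ N, IsStarProjection q → q ≠ 0 →
  ∀ θ : (H →L[ℂ] H) → (H →L[ℂ] H), CornerIso N p q θ →
  ∀ l : ℝ, (∀ x ∈ corner N p, ‖θ x ξ‖ ≤ l * ‖x ξ‖) →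
  ∃ T : H →L[ℂ] H, T ≠ 0 ∧ q * T = T ∧ T * p = T ∧ ∀ x ∈ corner N p, T * x = θ x * T

/-- A nonspatial isomorphism of corners has no nonzero intertwiner in `N`. -/
def T_INT : Prop := ∀ (N : VonNeumannAlgebra H), IsFactor N →
  ∀ p ∈ N, IsStarProjection p → p ≠ 0 → ∀ q ∈ N, IsStarProjection q → q ≠ 0 →
  ∀ θ : (H →L[ℂ] H) → (H →L[ℂ] H), CornerIso N p q θ → ¬ Spatial N p q θ →
  ∀ z ∈ N, p * z * q = z → (∀ x ∈ corner N p, x * z = z * θ x) → z = 0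

/-- The diagonal subalgebra `{x + θ(x)}` has a finite quasi-basis. -/
def T_QB : Prop := ∀ (N : VonNeumannAlgebra H) (ξ : H), IsIIOneFactor N ξ →
  ∀ p ∈ N, IsStarProjection p → p ≠ 0 → p ≠ 1 →
  ∀ θ : (H →L[ℂ] H) → (H →L[ℂ] H), CornerIso N p (1 - p) θ →
  ∃ (E : (H →L[ℂ] H) → (H →L[ℂ] H)) (k : ℕ) (m : Fin k → (H →L[ℂ] H)),
    QBasis N {y | ∃ x ∈ corner N p, y = x + θ x} E k m

/-- The relative commutant of the diagonal subalgebra. -/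
def T_DRC : Prop := ∀ (N : VonNeumannAlgebra H), IsFactor N →
  ∀ p ∈ N, IsStarProjection p → p ≠ 0 → p ≠ 1 →
  ∀ θ : (H →L[ℂ] H) → (H →L[ℂ] H), CornerIso N p (1 - p) θ → ¬ Spatial N p (1 - p) θ →
  ∀ y ∈ N, (∀ x ∈ corner N p, y * (x + θ x) = (x + θ x) * y) →
  ∃ a b : ℂ, y = a • p + b • (1 - p)

/-- Complementary corners: a nonspatial isomorphism makes `N` bc-good. -/
def T_BCT : Prop := ∀ (N : VonNeumannAlgebra H) (ξ : H), IsIIOneFactor N ξ → UG N ξ →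
  ∀ U : Ultrafilter ℕ, ∀ p ∈ N, IsStarProjection p → p ≠ 0 → p ≠ 1 →
  ∀ θ : (H →L[ℂ] H) → (H →L[ℂ] H), CornerIso N p (1 - p) θ → ¬ Spatial N p (1 - p) θ →
  BCGood U N ξ

/-- Amplification of an isomorphism of corners to complementary corners. -/
def T_AMP : Prop := ∀ (N : VonNeumannAlgebra H) (ξ : H), IsIIOneFactor N ξ →
  ∀ p ∈ N, IsStarProjection p → p ≠ 0 → ∀ q ∈ N, IsStarProjection q → q ≠ 0 →
  ∀ θ : (H →L[ℂ] H) → (H →L[ℂ] H), CornerIso N p q θ →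
  ∃ e ∈ N, IsStarProjection e ∧ e ≠ 0 ∧ p * e = e ∧
  ∃ p' ∈ N, IsStarProjection p' ∧ p' ≠ 0 ∧ p' ≠ 1 ∧
  ∃ θ' : (H →L[ℂ] H) → (H →L[ℂ] H), CornerIso N p' (1 - p') θ' ∧
    (Spatial N p' (1 - p') θ' → Spatial N e (θ e) θ)

/-- Spatiality extends from a smaller corner. -/
def T_SPX : Prop := ∀ (N : VonNeumannAlgebra H) (ξ : H), IsIIOneFactor N ξ →
  ∀ p ∈ N, IsStarProjection p → ∀ q ∈ N, IsStarProjection q →
  ∀ θ : (H →L[ℂ] H) → (H →L[ℂ] H), CornerIso N p q θ →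
  ∀ e ∈ N, IsStarProjection e → e ≠ 0 → p * e = e → Spatial N e (θ e) θ →
  Spatial N p q θ

/-! ### Group F: approximation by subalgebras -/

/-- Finitely many elements of `A` detect scalars up to `ε`. -/
def Tight {H : Type} [NormedAddCommGroup H] [InnerProductSpace ℂ H] [CompleteSpace H]
    (A : Set (H →L[ℂ] H)) (N : VonNeumannAlgebra H) (ξ : H) (ε : ℝ) : Prop :=
  ∃ G : Finset (H →L[ℂ] H), (∀ g ∈ G, g ∈ A) ∧ ∃ δ : ℝ, 0 < δ ∧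
    ∀ x ∈ N, ‖x‖ ≤ 1 → (∀ g ∈ G, ‖(x * g - g * x) ξ‖ < δ) → ‖x ξ - tr ξ x • ξ‖ < ε

/-- Subalgebras which almost contain a suitable finite set are tight. -/
def T_NEAR : Prop := ∀ (N : VonNeumannAlgebra H) (ξ : H), IsTraceVector N ξ → UG N ξ →
  ∀ ε : ℝ, 0 < ε → ∃ F : Finset (H →L[ℂ] H), (∀ y ∈ F, y ∈ N) ∧ ∃ δ : ℝ, 0 < δ ∧
  ∀ A : Set (H →L[ℂ] H), (∀ a ∈ A, a ∈ N) → (∀ y ∈ F, ∃ a ∈ A, ‖(y - a) ξ‖ < δ) →
  Tight A N ξ ε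

/-- The atom of `A' ∩ N`. -/
def T_ATOM : Prop := ∀ (N : VonNeumannAlgebra H) (ξ : H), IsTraceVector N ξ →
  ∀ A : VonNeumannAlgebra H, (∀ a ∈ A, a ∈ N) → Tight (A : Set (H →L[ℂ] H)) N ξ (1 / 4) →
  ∃ p : H →L[ℂ] H, Irr N (A : Set (H →L[ℂ] H)) p ∧ 3 / 4 ≤ ‖p ξ‖ ^ 2

/-- Asymptotically `A`-central sequences in the atomic corner are scalars. -/
def T_CGAP : Prop := ∀ (N : VonNeumannAlgebra H) (ξ : H), IsTraceVector N ξ →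
  ∀ A : VonNeumannAlgebra H, Tight (A : Set (H →L[ℂ] H)) N ξ (1 / 4) →
  ∀ p : H →L[ℂ] H, Irr N (A : Set (H →L[ℂ] H)) p → 3 / 4 ≤ ‖p ξ‖ ^ 2 →
  ∀ (U : Ultrafilter ℕ) (x : ℕ → (H →L[ℂ] H)) (C : ℝ), (∀ n, x n ∈ N) →
  (∀ n, p * x n * p = x n) → (∀ n, ‖x n‖ ≤ C) →
  (∀ a ∈ A, Tendsto (fun n => ‖(x n * a - a * x n) ξ‖) (U : Filter ℕ) (𝓝 0)) →
  Tendsto (fun n => ‖(x n - (tr ξ (x n) / tr ξ p) • p) ξ‖) (U : Filter ℕ) (𝓝 0)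

/-- The von Neumann algebra generated by `A` and `p` is diffuse below `p`. -/
def T_NMD : Prop := ∀ (N : VonNeumannAlgebra H) (ξ : H), IsIIOneFactor N ξ →
  ∀ A : VonNeumannAlgebra H, ∀ p : H →L[ℂ] H, Irr N (A : Set (H →L[ℂ] H)) p →
  NoMin (gen ((A : Set (H →L[ℂ] H)) ∪ {p})) p

/-- If `p N p` is not contained in the algebra generated by `A` and `p` then `N` is
bc-good. -/
def T_QBC : Prop := ∀ (N : VonNeumannAlgebra H) (ξ : H), IsIIOneFactor N ξ →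
  ∀ A : VonNeumannAlgebra H, ∀ p : H →L[ℂ] H, Irr N (A : Set (H →L[ℂ] H)) p →
  3 / 4 ≤ ‖p ξ‖ ^ 2 → ∀ U : Ultrafilter ℕ,
  (∀ (x : ℕ → (H →L[ℂ] H)) (C : ℝ), (∀ n, x n ∈ N) →
    (∀ n, p * x n * p = x n) → (∀ n, ‖x n‖ ≤ C) →
    (∀ a ∈ A, Tendsto (fun n => ‖(x n * a - a * x n) ξ‖) (U : Filter ℕ) (𝓝 0)) →
    Tendsto (fun n => ‖(x n - (tr ξ (x n) / tr ξ p) • p) ξ‖) (U : Filter ℕ) (𝓝 0)) →
  (∃ x ∈ N, p * x * p ∉ gen ((A : Set (H →L[ℂ] H)) ∪ {p})) → BCGood U N ξ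

/-- The conclusion of part (iii) for one directed family. -/
def CornerIn {H : Type} [NormedAddCommGroup H] [InnerProductSpace ℂ H] [CompleteSpace H]
    (N : VonNeumannAlgebra H) (A : VonNeumannAlgebra H) : Prop :=
  ∃ p ∈ N, IsStarProjection p ∧ p ≠ 0 ∧ (∀ a ∈ A, p * a = a * p) ∧
    ∀ x ∈ N, p * x * p ∈ gen ((A : Set (H →L[ℂ] H)) ∪ {p})

/-- `A` is a directed family of subalgebras of `N` whose union is dense in `2`-norm. -/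
structure DirDense {H : Type} [NormedAddCommGroup H] [InnerProductSpace ℂ H]
    [CompleteSpace H] (N : VonNeumannAlgebra H) (ξ : H) {ι : Type}
    (A : ι → VonNeumannAlgebra H) : Prop where
  nonempty : Nonempty ι
  sub : ∀ i, ∀ x ∈ A i, x ∈ N
  directed : ∀ i j, ∃ k, (∀ x ∈ A i, x ∈ A k) ∧ (∀ x ∈ A j, x ∈ A k)
  dense : ∀ x ∈ N, ∀ ε : ℝ, 0 < ε → ∃ i, ∃ a ∈ A i, ‖(x - a) ξ‖ < ε

/-- Part (iii). -/
def T_APR : Prop := ∀ (N : VonNeumannAlgebra H) (ξ : H), IsIIOneFactor N ξ → UG N ξ →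
  ∀ U : Ultrafilter ℕ, ¬ BCGood U N ξ → ∀ (ι : Type) (A : ι → VonNeumannAlgebra H),
  DirDense N ξ A → ∃ i, CornerIn N (A i)

/-- Part (iii) implies finite generation. -/
def T_FG : Prop := ∀ (N : VonNeumannAlgebra H) (ξ : H), IsIIOneFactor N ξ →
  (∀ (ι : Type) (A : ι → VonNeumannAlgebra H), DirDense N ξ A → ∃ i, CornerIn N (A i)) →
  FinGen N

/-! ### The result -/

def T_RES : Prop := ∀ (N : VonNeumannAlgebra H) (ξ : H), IsIIOneFactor N ξ →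
  ¬ HasGamma N ξ → ∀ U : Ultrafilter ℕ, ¬ BCGood U N ξ →
  (∀ P : VonNeumannAlgebra H, (∀ x ∈ P, x ∈ N) → IsFactor P → FiniteIndex P N ξ →
    relComm (relComm (P : Set (H →L[ℂ] H)) N) N = (P : Set (H →L[ℂ] H))) ∧
  (∀ p ∈ N, IsStarProjection p → p ≠ 0 → ∀ q ∈ N, IsStarProjection q → q ≠ 0 →
    ∀ θ : (H →L[ℂ] H) → (H →L[ℂ] H), CornerIso N p q θ → Spatial N p q θ) ∧
  (∀ (ι : Type) (A : ι → VonNeumannAlgebra H), DirDense N ξ A → ∃ i, CornerIn N (A i)) ∧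
  FinGen N

end

end Pool.Agent.H85.BC
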