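import Pool.Agent.H85.BC.Basic

/-!
# Row QBC of bcg_modules: a tight subalgebra without corner makes `N` bc-good
-/

set_option autoImplicit false

open scoped InnerProductSpace Topology
open Filter

namespace Pool.Agent.H85.BC

variable {H : Type} [NormedAddCommGroup H] [InnerProductSpace ℂ H] [CompleteSpace H]

theorem pf_QBC (hHALF : T_HALF H) (hEQV : T_EQV H) (hNMD : T_NMD H) : T_QBC H := by
  intro N ξ hN A p hirr h34 U hgap hex
  have hξ := hN.traceVector
  have hp := hirr.proj
  have hpN := hirr.mem
  have hpp : p * p = p := hp.isIdempotentElem.eq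
  have hps : star p = p := hp.isSelfAdjoint.star_eq
  have hNMp := hNMD N ξ hN A p hirr
  set M₀ := gen ((A : Set (H →L[ℂ] H)) ∪ {p}) with hM₀
  have hM₀N : ∀ x ∈ M₀, x ∈ N := fun x hx => gen_le (fun y hy => by
    rcases hy with hy | hy
    · exact hirr.sub y hy
    · rw [Set.mem_singleton_iff.1 hy]; exact hpN) hx
  have hpM₀ : p ∈ M₀ := subset_gen (Or.inr rfl)
  have hAM₀ : ∀ a ∈ A, a ∈ M₀ := fun a ha => subset_gen (Or.inl ha)
  have hcent : ∀ x ∈ M₀, p * x = x * p := by
    intro x hx
    refine gen_comm hx (fun y hy => ?_)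
    rcases hy with hy | hy
    · exact ⟨(hirr.comm y hy).symm, (hirr.comm (star y) (hirr.star_mem y hy)).symm⟩
    · rw [Set.mem_singleton_iff.1 hy, hps]; exact ⟨rfl, rfl⟩
  have h1p : IsStarProjection (1 - p) := hp.one_sub
  have h1pN : (1 - p : H →L[ℂ] H) ∈ N := sub_mem (one_mem N) hpN
  have hnorm1 : ‖(1 - p) ξ‖ ^ 2 = 1 - ‖p ξ‖ ^ 2 := by
    have := norm_sq_sub_proj ξ hp (.one _) (one_mul p)
    rw [this]
    simp [hξ.norm_eq]
  obtain ⟨f, hfM, hf, hpf, hfnorm⟩ := hHALF N ξ hξ M₀ hM₀N p hpM₀ hp hNMp p hpM₀ hp hpp
    (‖(1 - p) ξ‖ ^ 2) (by positivity) (by rw [hnorm1]; linarith)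
  have hfN := hM₀N f hfM
  have hnormeq : ‖(1 - p) ξ‖ = ‖f ξ‖ :=
    ((pow_left_inj₀ (norm_nonneg _) (norm_nonneg _) two_ne_zero).1 hfnorm).symm
  obtain ⟨v, hvN, hv1, hv2⟩ := hEQV N ξ hξ hN.factor (1 - p) h1pN h1p f hfN hf hnormeq
  have hvpi : IsStarProjection (star v * v) := by rw [hv1]; exact h1p
  have hvr : v * (1 - p) = v := by rw [← hv1]; exact pi_mul_star_mul hvpi
  have hvp : v * p = 0 := by
    have : v * p = v - v * (1 - p) := by rw [mul_sub, mul_one]; abel
    rw [this, hvr, sub_self]
  have hfv : f * v = v := by rw [← hv2, mul_assoc]; exact pi_mul_star_mul hvpi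
  have hpv : p * v = v := by
    calc p * v = p * (f * v) := by rw [hfv]
      _ = (p * f) * v := by rw [mul_assoc]
      _ = v := by rw [hpf, hfv]
  have hvv : v * v = 0 := by
    calc v * v = v * (p * v) := by rw [hpv]
      _ = (v * p) * v := by rw [mul_assoc]
      _ = 0 := by rw [hvp, zero_mul]
  have hsv : star v ∈ N := star_mem hvN
  have hpsv : p * star v = 0 := by
    have := congrArg star hvp
    rwa [star_mul, hps, star_zero] at this
  have hsvp : star v * p = star v := by
    have := congrArg star hpv
    rwa [star_mul, hps] at this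
  have hsvf : star v * f = star v := by
    have := congrArg star hfv
    rwa [star_mul, hf.isSelfAdjoint.star_eq] at this
  have hsvsv : star v * star v = 0 := by
    have := congrArg star hvv
    rwa [star_mul, star_zero] at this
  have hvnorm : ‖v‖ ≤ 1 := by
    have h1 : ‖star v * v‖ = ‖v‖ * ‖v‖ := CStarRing.norm_star_mul_self
    have h2 := proj_norm_le_one hvpi
    rw [h1] at h2
    nlinarith [norm_nonneg v]
  set S : Set (H →L[ℂ] H) := corner M₀ p ∪ {v} with hS
  set Q := gen S with hQ
  have hSN : ∀ y ∈ S, y ∈ N := by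
    intro y hy
    rcases hy with hy | hy
    · exact hM₀N y hy.1
    · rw [Set.mem_singleton_iff.1 hy]; exact hvN
  have hQN : ∀ x ∈ Q, x ∈ N := fun x hx => gen_le hSN hx
  have hpQ : p ∈ Q := subset_gen (Or.inl (p_mem_corner hpM₀ hp))
  have hvQ : v ∈ Q := subset_gen (Or.inr rfl)
  -- pQp ⊆ M₀
  have hkey1 : ∀ x ∈ Q, p * x * p ∈ M₀ := by
    intro x hx
    apply mem_of_commutant
    intro t ht
    have htp : p * t = t * p := ht p hpM₀
    have htf : f * t = t * f := ht f hfM
    set T : H →L[ℂ] H := p * t * p + star v * t * v with hT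
    have hcorn : ∀ d ∈ corner M₀ p, d * T = T * d := by
      intro d hd
      have h1 : p * d = d := corner_left hp hd
      have h2 : d * p = d := corner_right hp hd
      have h3 : d * t = t * d := ht d hd.1
      have h4 : d * star v = 0 := by
        calc d * star v = (d * p) * star v := by rw [h2]
          _ = d * (p * star v) := by rw [mul_assoc]
          _ = 0 := by rw [hpsv, mul_zero]
      have h5 : v * d = 0 := by
        calc v * d = v * (p * d) := by rw [h1]
          _ = (v * p) * d := by rw [mul_assoc]
          _ = 0 := by rw [hvp, zero_mul]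
      have h6 : d * T = t * d := by
        calc d * T = (d * p) * t * p + (d * star v) * t * v := by
              rw [hT]; simp only [mul_add, mul_assoc]
          _ = d * t * p := by rw [h2, h4]; simp
          _ = t * (d * p) := by rw [h3, mul_assoc]
          _ = t * d := by rw [h2]
      have h7 : T * d = t * d := by
        calc T * d = (p * t) * (p * d) + star v * t * (v * d) := by
              rw [hT]; simp only [add_mul, mul_assoc]
          _ = t * (p * d) := by rw [h5, h1, htp, mul_zero, add_zero, mul_assoc, h1]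
          _ = t * d := by rw [h1]
      rw [h6, h7]
    have hTv : v * T = T * v := by
      have h6 : v * T = t * v := by
        calc v * T = (v * p) * t * p + (v * star v) * t * v := by
              rw [hT]; simp only [mul_add, mul_assoc]
          _ = f * t * v := by rw [hvp, hv2]; simp
          _ = t * (f * v) := by rw [htf, mul_assoc]
          _ = t * v := by rw [hfv]
      have h7 : T * v = t * v := by
        calc T * v = (p * t) * (p * v) + star v * t * (v * v) := by
              rw [hT]; simp only [add_mul, mul_assoc]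
          _ = t * (p * v) := by rw [hvv, hpv, htp, mul_zero, add_zero, mul_assoc, hpv]
          _ = t * v := by rw [hpv]
      rw [h6, h7]
    have hTsv : star v * T = T * star v := by
      have h6 : star v * T = star v * t := by
        calc star v * T = (star v * p) * t * p + (star v * star v) * t * v := by
              rw [hT]; simp only [mul_add, mul_assoc]
          _ = star v * (t * p) := by rw [hsvp, hsvsv]; simp [mul_assoc]
          _ = (star v * p) * t := by rw [← htp, mul_assoc]
          _ = star v * t := by rw [hsvp]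
      have h7 : T * star v = star v * t := by
        calc T * star v = (p * t) * (p * star v) + star v * t * (v * star v) := by
              rw [hT]; simp only [add_mul, mul_assoc]
          _ = star v * (t * f) := by rw [hpsv, hv2, mul_zero, zero_add, mul_assoc]
          _ = (star v * f) * t := by rw [← htf, mul_assoc]
          _ = star v * t := by rw [hsvf]
      rw [h6, h7]
    have hcomm : T * x = x * T := by
      refine gen_comm hx (fun y hy => ?_)
      rcases hy with hy | hy
      · exact ⟨hcorn y hy, hcorn (star y) (corner_star hp hy)⟩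
      · rw [Set.mem_singleton_iff.1 hy]; exact ⟨hTv, hTsv⟩
    have hpT : p * T = t * p := by
      calc p * T = (p * p) * t * p + (p * star v) * t * v := by
            rw [hT]; simp only [mul_add, mul_assoc]
        _ = p * t * p := by rw [hpp, hpsv]; simp
        _ = t * p := by rw [htp, mul_assoc, hpp]
    have hTp : T * p = p * t := by
      calc T * p = (p * t) * (p * p) + star v * t * (v * p) := by
            rw [hT]; simp only [add_mul, mul_assoc]
        _ = p * t * p := by rw [hpp, hvp, mul_zero, add_zero]
        _ = p * t := by rw [mul_assoc, ← htp, ← mul_assoc, hpp]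
    calc t * (p * x * p) = (t * p) * x * p := by simp only [mul_assoc]
      _ = p * (T * x) * p := by rw [← hpT]; simp only [mul_assoc]
      _ = p * x * (T * p) := by rw [hcomm]; simp only [mul_assoc]
      _ = p * x * p * t := by rw [hTp]; simp only [mul_assoc]
  -- asymptotically central sequences
  have htrp : tr ξ p = ((‖p ξ‖ ^ 2 : ℝ) : ℂ) := tr_proj ξ hp
  have hkey2 : ∀ x : ℕ → (H →L[ℂ] H), (∀ n, x n ∈ N) → (∃ C : ℝ, ∀ n, ‖x n‖ ≤ C) →
      (∀ y ∈ Q, Tendsto (fun n => ‖(x n * y - y * x n) ξ‖) (U : Filter ℕ) (𝓝 0)) →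
      (∃ C : ℝ, ∀ n, ‖(tr ξ (p * x n * p) / tr ξ p) • (1 : H →L[ℂ] H)‖ ≤ C) ∧
      Tendsto (fun n => ‖(x n - (tr ξ (p * x n * p) / tr ξ p) • 1) ξ‖) (U : Filter ℕ)
        (𝓝 0) := by
    rintro x hx ⟨C, hC⟩ hcomm
    have hpn := proj_norm_le_one hp
    have hC0 : 0 ≤ C := (norm_nonneg _).trans (hC 0)
    have hpxp : ∀ n, ‖p * x n * p‖ ≤ C := by
      intro n
      calc ‖p * x n * p‖ ≤ ‖p‖ * ‖x n‖ * ‖p‖ :=
            (norm_mul_le _ _).trans (mul_le_mul_of_nonneg_right (norm_mul_le _ _)
              (norm_nonneg _))
        _ ≤ 1 * C * 1 := by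
            apply mul_le_mul (mul_le_mul hpn (hC n) (norm_nonneg _) zero_le_one) hpn
              (norm_nonneg _) (by positivity)
        _ = C := by ring
    constructor
    · refine ⟨C / (3 / 4) * ‖(1 : H →L[ℂ] H)‖, fun n => ?_⟩
      rw [norm_smul]
      refine mul_le_mul_of_nonneg_right ?_ (norm_nonneg _)
      rw [norm_div]
      have h1 : ‖tr ξ (p * x n * p)‖ ≤ C := by
        unfold tr
        refine (norm_inner_le_norm _ _).trans ?_
        rw [hξ.norm_eq, one_mul]
        refine ((p * x n * p).le_opNorm ξ).trans ?_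
        rw [hξ.norm_eq, mul_one]
        exact hpxp n
      have h2 : (3 / 4 : ℝ) ≤ ‖tr ξ p‖ := by
        rw [htrp, Complex.norm_real, Real.norm_eq_abs, abs_of_nonneg (by positivity)]
        exact h34
      exact div_le_div₀ hC0 h1 (by norm_num) h2
    · -- the gap in the corner
      have hD := hgap (fun n => p * x n * p) C
        (fun n => mul_mem (mul_mem hpN (hx n)) hpN)
        (fun n => (corner_mk hpN hp (hx n)).2) hpxp (by
          intro a ha
          have had : a * p ∈ corner M₀ p := by
            refine mem_corner (mul_mem (hAM₀ a ha) hpM₀) ?_ ?_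
            · rw [← mul_assoc, hirr.comm a ha, mul_assoc, hpp]
            · rw [mul_assoc, hpp]
          have hdQ : a * p ∈ Q := subset_gen (Or.inl had)
          have h1 : ∀ n, p * x n * p * a - a * (p * x n * p) =
              p * (x n * (a * p) - (a * p) * x n) * p := by
            intro n
            have e1 : p * x n * p * a = p * (x n * (a * p)) * p := by
              calc p * x n * p * a = p * x n * (p * a) := by simp only [mul_assoc]
                _ = p * x n * (a * p) := by rw [hirr.comm a ha]
                _ = p * x n * (a * (p * p)) := by rw [hpp]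
                _ = p * (x n * (a * p)) * p := by simp only [mul_assoc]
            have e2 : a * (p * x n * p) = p * ((a * p) * x n) * p := by
              calc a * (p * x n * p) = (a * p) * x n * p := by simp only [mul_assoc]
                _ = (a * (p * p)) * x n * p := by rw [hpp]
                _ = ((a * p) * p) * x n * p := by simp only [mul_assoc]
                _ = ((p * a) * p) * x n * p := by rw [hirr.comm a ha]
                _ = p * ((a * p) * x n) * p := by simp only [mul_assoc]
            rw [e1, e2, ← sub_mul, ← mul_sub]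
          refine squeeze_zero (fun n => norm_nonneg _) (fun n => ?_) (hcomm _ hdQ)
          have hcN : x n * (a * p) - (a * p) * x n ∈ N :=
            sub_mem (mul_mem (hx n) (hQN _ hdQ)) (mul_mem (hQN _ hdQ) (hx n))
          rw [h1 n]
          calc ‖(p * (x n * (a * p) - (a * p) * x n) * p) ξ‖
              ≤ ‖p‖ * ‖(p * (x n * (a * p) - (a * p) * x n)) ξ‖ :=
                hξ.norm_mul_right (mul_mem hpN hcN) hpN
            _ ≤ 1 * (1 * ‖(x n * (a * p) - (a * p) * x n) ξ‖) := by
                apply mul_le_mul hpn _ (norm_nonneg _) zero_le_one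
                refine (norm_mul_left ξ _ _).trans ?_
                exact mul_le_mul_of_nonneg_right hpn (norm_nonneg _)
            _ = ‖(x n * (a * p) - (a * p) * x n) ξ‖ := by ring)
      have hk := hcomm p hpQ
      have hl := hcomm v hvQ
      have hbound : ∀ n, ‖(x n - (tr ξ (p * x n * p) / tr ξ p) • 1) ξ‖ ≤
          2 * ‖(p * x n * p - (tr ξ (p * x n * p) / tr ξ p) • p) ξ‖ +
            ‖(x n * v - v * x n) ξ‖ + 2 * ‖(x n * p - p * x n) ξ‖ := by
        intro n
        set c : ℂ := tr ξ (p * x n * p) / tr ξ p with hc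
        set D : H →L[ℂ] H := p * x n * p - c • p with hDd
        set κ : H →L[ℂ] H := x n * p - p * x n with hκ
        set l : H →L[ℂ] H := x n * v - v * x n with hl'
        have hDN : D ∈ N := sub_mem (mul_mem (mul_mem hpN (hx n)) hpN) (smul_mem' N c hpN)
        have hκN : κ ∈ N := sub_mem (mul_mem (hx n) hpN) (mul_mem hpN (hx n))
        have hlN : l ∈ N := sub_mem (mul_mem (hx n) hvN) (mul_mem hvN (hx n))
        have hid : x n - c • (1 : H →L[ℂ] H) = D + star v * D * v - star v * l * (1 - p)
            - κ * (1 - p) + (1 - p) * κ := by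
          have e1 : star v * D * v = star v * x n * v - c • (1 - p) := by
            rw [hDd]
            have e2 : star v * (p * x n * p) * v = star v * x n * v := by
              calc star v * (p * x n * p) * v = (star v * p) * x n * (p * v) := by
                    simp only [mul_assoc]
                _ = star v * x n * v := by rw [hsvp, hpv]
            have e3 : star v * (c • p) * v = c • (1 - p) := by
              rw [mul_smul_comm, smul_mul_assoc, hsvp, hv1]
            rw [mul_sub, sub_mul, e2, e3]
          have e4 : star v * l * (1 - p) = star v * x n * v - (1 - p) * x n * (1 - p) := by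
            rw [hl']
            calc star v * (x n * v - v * x n) * (1 - p)
                = star v * x n * (v * (1 - p)) - (star v * v) * x n * (1 - p) := by
                  simp only [mul_sub, sub_mul, mul_assoc, mul_one]
                  abel
              _ = star v * x n * v - (1 - p) * x n * (1 - p) := by rw [hvr, hv1]
          rw [e1, e4, hDd, hκ]
          simp only [mul_sub, sub_mul, mul_one, one_mul, mul_assoc, hpp, smul_sub]
          have e5 : p * (p * x n) = p * x n := by rw [← mul_assoc, hpp]
          simp only [e5]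
          abel
        have h1pn := proj_norm_le_one h1p
        have hsvn : ‖star v‖ ≤ 1 := by rw [norm_star]; exact hvnorm
        have b1 : ‖(star v * D * v) ξ‖ ≤ ‖D ξ‖ := by
          calc ‖(star v * D * v) ξ‖ ≤ ‖v‖ * ‖(star v * D) ξ‖ :=
                hξ.norm_mul_right (mul_mem hsv hDN) hvN
            _ ≤ 1 * (1 * ‖D ξ‖) := by
                apply mul_le_mul hvnorm _ (norm_nonneg _) zero_le_one
                exact (norm_mul_left ξ _ _).trans
                  (mul_le_mul_of_nonneg_right hsvn (norm_nonneg _))
            _ = ‖D ξ‖ := by ring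
        have b2 : ‖(star v * l * (1 - p)) ξ‖ ≤ ‖l ξ‖ := by
          calc ‖(star v * l * (1 - p)) ξ‖ ≤ ‖(1 - p : H →L[ℂ] H)‖ * ‖(star v * l) ξ‖ :=
                hξ.norm_mul_right (mul_mem hsv hlN) h1pN
            _ ≤ 1 * (1 * ‖l ξ‖) := by
                apply mul_le_mul h1pn _ (norm_nonneg _) zero_le_one
                exact (norm_mul_left ξ _ _).trans
                  (mul_le_mul_of_nonneg_right hsvn (norm_nonneg _))
            _ = ‖l ξ‖ := by ring
        have b3 : ‖(κ * (1 - p)) ξ‖ ≤ ‖κ ξ‖ := by
          refine (hξ.norm_mul_right hκN h1pN).trans ?_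
          calc ‖(1 - p : H →L[ℂ] H)‖ * ‖κ ξ‖ ≤ 1 * ‖κ ξ‖ :=
                mul_le_mul_of_nonneg_right h1pn (norm_nonneg _)
            _ = ‖κ ξ‖ := one_mul _
        have b4 : ‖((1 - p) * κ) ξ‖ ≤ ‖κ ξ‖ := by
          refine (norm_mul_left ξ _ _).trans ?_
          calc ‖(1 - p : H →L[ℂ] H)‖ * ‖κ ξ‖ ≤ 1 * ‖κ ξ‖ :=
                mul_le_mul_of_nonneg_right h1pn (norm_nonneg _)
            _ = ‖κ ξ‖ := one_mul _
        have hid2 : (x n - c • (1 : H →L[ℂ] H)) ξ = D ξ + (star v * D * v) ξ
            - (star v * l * (1 - p)) ξ - (κ * (1 - p)) ξ + ((1 - p) * κ) ξ := by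
          rw [hid]; rfl
        rw [hid2]
        calc ‖D ξ + (star v * D * v) ξ - (star v * l * (1 - p)) ξ - (κ * (1 - p)) ξ +
              ((1 - p) * κ) ξ‖
            ≤ ‖D ξ‖ + ‖(star v * D * v) ξ‖ + ‖(star v * l * (1 - p)) ξ‖ +
                ‖(κ * (1 - p)) ξ‖ + ‖((1 - p) * κ) ξ‖ := by
              refine (norm_add_le _ _).trans (add_le_add_left ?_ _)
              refine (norm_sub_le _ _).trans (add_le_add_left ?_ _)
              refine (norm_sub_le _ _).trans (add_le_add_left ?_ _)
              exact norm_add_le _ _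
          _ ≤ 2 * ‖D ξ‖ + ‖l ξ‖ + 2 * ‖κ ξ‖ := by linarith
      refine squeeze_zero (fun n => norm_nonneg _) hbound ?_
      have h0 := ((hD.const_mul 2).add hl).add (hk.const_mul 2)
      simpa using h0
  have hkey3 : ∀ x ∈ N, (∀ y ∈ Q, x * y = y * x) → ∃ c : ℂ, x = c • (1 : H →L[ℂ] H) := by
    intro x hx hxc
    obtain ⟨-, h2⟩ := hkey2 (fun _ => x) (fun _ => hx) ⟨‖x‖, fun _ => le_rfl⟩ (by
      intro y hy
      have : (fun _ : ℕ => ‖(x * y - y * x) ξ‖) = fun _ => (0 : ℝ) := by
        funext _
        rw [hxc y hy, sub_self]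
        simp
      rw [this]
      exact tendsto_const_nhds)
    have h3 := tendsto_nhds_unique h2 tendsto_const_nhds
    have h4 : x - (tr ξ (p * x * p) / tr ξ p) • (1 : H →L[ℂ] H) = 0 :=
      hξ.eq_zero (sub_mem hx (smul_mem' N _ (one_mem N))) (norm_eq_zero.1 h3.symm)
    exact ⟨_, sub_eq_zero.1 h4⟩
  refine ⟨Q, hQN, ?_, ?_, ?_⟩
  · intro x hx hxc
    exact hkey3 x (hQN x hx) hxc
  · intro x hx hC hcomm
    obtain ⟨h1, h2⟩ := hkey2 x hx hC hcomm
    refine ⟨fun n => (tr ξ (p * x n * p) / tr ξ p) • 1, fun n => ⟨?_, ?_⟩, h1, h2⟩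
    · exact smul_mem' N _ (one_mem N)
    · intro y _
      simp
  · intro heq
    obtain ⟨x₀, hx₀, hx₀'⟩ := hex
    apply hx₀'
    apply hkey1
    have h1 : x₀ ∈ relComm (relComm (Q : Set (H →L[ℂ] H)) N) N := by
      refine ⟨hx₀, ?_⟩
      rintro y ⟨hyN, hyc⟩
      obtain ⟨c, rfl⟩ := hkey3 y hyN hyc
      simp
    rw [heq] at h1
    exact h1

end Pool.Agent.H85.BC
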