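import Pool.Agent.H85.BC.Basic

/-!
# Rows COM, LOW, FIN of bcg_modules
-/

set_option autoImplicit false

open scoped InnerProductSpace Topology
open Filter

namespace Pool.Agent.H85.BC

variable {H : Type} [NormedAddCommGroup H] [InnerProductSpace ℂ H] [CompleteSpace H]

theorem pf_COM : T_COM H := by
  intro N P E k m hQ a ha x hx
  have h1 : ∀ j, a * m j = ∑ i, m i * E (star (m i) * a * m j) := by
    intro j
    have := hQ.left (a * m j) (mul_mem ha (hQ.mem j))
    simpa only [mul_assoc] using this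
  have h2 : ∀ i, star (m i) * a = ∑ j, E (star (m i) * a * m j) * star (m j) := by
    intro i
    exact hQ.right (star (m i) * a) (mul_mem (star_mem (hQ.mem i)) ha)
  have e1 : a * (∑ j, m j * x * star (m j)) =
      ∑ i, ∑ j, m i * (E (star (m i) * a * m j) * x) * star (m j) := by
    calc a * (∑ j, m j * x * star (m j)) = ∑ j, (a * m j) * x * star (m j) := by
          rw [Finset.mul_sum]
          exact Finset.sum_congr rfl (fun j _ => by simp only [mul_assoc])
      _ = ∑ j, ∑ i, m i * (E (star (m i) * a * m j) * x) * star (m j) := by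
          refine Finset.sum_congr rfl (fun j _ => ?_)
          rw [h1 j, Finset.sum_mul, Finset.sum_mul]
          exact Finset.sum_congr rfl (fun i _ => by simp only [mul_assoc])
      _ = _ := Finset.sum_comm
  have e2 : (∑ j, m j * x * star (m j)) * a =
      ∑ i, ∑ j, m i * (x * E (star (m i) * a * m j)) * star (m j) := by
    calc (∑ i, m i * x * star (m i)) * a = ∑ i, m i * x * (star (m i) * a) := by
          rw [Finset.sum_mul]
          exact Finset.sum_congr rfl (fun i _ => by simp only [mul_assoc])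
      _ = ∑ i, ∑ j, m i * (x * E (star (m i) * a * m j)) * star (m j) := by
          refine Finset.sum_congr rfl (fun i _ => ?_)
          conv_lhs => rw [h2 i, Finset.mul_sum]
          exact Finset.sum_congr rfl (fun j _ => by simp only [mul_assoc])
  rw [e1, e2, ← Finset.sum_sub_distrib]
  refine Finset.sum_congr rfl (fun i _ => ?_)
  rw [← Finset.sum_sub_distrib]
  refine Finset.sum_congr rfl (fun j _ => ?_)
  rw [← sub_mul, ← mul_sub]

theorem pf_LOW : T_LOW H := by
  classical
  intro N ξ hξ P E k m hQ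
  have h1 : (1 : H →L[ℂ] H) = ∑ j, m j * E (star (m j)) := by
    have := hQ.left 1 (one_mem N)
    simpa only [mul_one] using this
  have hE : ∀ j, E (star (m j)) ∈ P := fun j => hQ.exp _ (star_mem (hQ.mem j))
  set C : ℝ := ∑ j, (‖m j‖ + ‖E (star (m j))‖) with hC
  have hC0 : 0 ≤ C := Finset.sum_nonneg (fun j _ => by positivity)
  have hCj : ∀ j, ‖m j‖ ≤ C ∧ ‖E (star (m j))‖ ≤ C := by
    intro j
    have h2 : ‖m j‖ + ‖E (star (m j))‖ ≤ C :=
      Finset.single_le_sum (f := fun j => ‖m j‖ + ‖E (star (m j))‖)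
        (fun i _ => by positivity) (Finset.mem_univ j)
    exact ⟨by linarith [norm_nonneg (E (star (m j)))], by linarith [norm_nonneg (m j)]⟩
  refine ⟨Finset.univ.image (fun j => E (star (m j))), ?_, C * (k + 1), by positivity, ?_⟩
  · intro g hg
    obtain ⟨j, -, rfl⟩ := Finset.mem_image.1 hg
    exact hE j
  · intro y hy
    set G := Finset.univ.image (fun j => E (star (m j))) with hG
    have h2 : y = ∑ j, (m j * y * E (star (m j)) - m j * (y * E (star (m j)) -
        E (star (m j)) * y)) := by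
      calc y = (∑ j, m j * E (star (m j))) * y := by rw [← h1, one_mul]
        _ = ∑ j, (m j * y * E (star (m j)) - m j * (y * E (star (m j)) -
            E (star (m j)) * y)) := by
          rw [Finset.sum_mul]
          refine Finset.sum_congr rfl (fun j _ => ?_)
          simp only [mul_sub, mul_assoc]
          abel
    have h3 : y ξ = ∑ j, ((m j * y * E (star (m j))) ξ - (m j * (y * E (star (m j)) -
        E (star (m j)) * y)) ξ) := by
      conv_lhs => rw [h2]
      rw [ContinuousLinearMap.sum_apply]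
      rfl
    have hterm : ∀ j, ‖(m j * y * E (star (m j))) ξ - (m j * (y * E (star (m j)) -
        E (star (m j)) * y)) ξ‖ ≤ C * ‖(m j * y) ξ‖ + C * ∑ g ∈ G, ‖(y * g - g * y) ξ‖ := by
      intro j
      refine (norm_sub_le _ _).trans (add_le_add ?_ ?_)
      · refine (hξ.norm_mul_right (mul_mem (hQ.mem j) hy) (hQ.sub _ (hE j))).trans ?_
        exact mul_le_mul_of_nonneg_right (hCj j).2 (norm_nonneg _)
      · refine (norm_mul_left ξ _ _).trans ?_
        refine mul_le_mul (hCj j).1 ?_ (norm_nonneg _) hC0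
        exact Finset.single_le_sum (f := fun g => ‖(y * g - g * y) ξ‖)
          (fun g _ => norm_nonneg _)
          (Finset.mem_image.2 ⟨j, Finset.mem_univ j, rfl⟩)
    rw [h3]
    refine (norm_sum_le _ _).trans ((Finset.sum_le_sum (fun j _ => hterm j)).trans ?_)
    rw [Finset.sum_add_distrib, ← Finset.mul_sum, Finset.sum_const, Finset.card_univ,
      Fintype.card_fin, nsmul_eq_mul]
    have hs1 : 0 ≤ ∑ a, ‖(m a * y) ξ‖ := Finset.sum_nonneg (fun a _ => norm_nonneg _)
    have hs2 : 0 ≤ ∑ g ∈ G, ‖(y * g - g * y) ξ‖ := Finset.sum_nonneg (fun a _ => norm_nonneg _)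
    have hk : (0 : ℝ) ≤ k := Nat.cast_nonneg k
    have e1 : C * (k + 1) * (∑ a, ‖(m a * y) ξ‖ + ∑ g ∈ G, ‖(y * g - g * y) ξ‖) =
        C * ∑ a, ‖(m a * y) ξ‖ + k * (C * ∑ g ∈ G, ‖(y * g - g * y) ξ‖) +
        (C * k * ∑ a, ‖(m a * y) ξ‖ + C * ∑ g ∈ G, ‖(y * g - g * y) ξ‖) := by ring
    rw [e1]
    have : 0 ≤ C * k * ∑ a, ‖(m a * y) ξ‖ + C * ∑ g ∈ G, ‖(y * g - g * y) ξ‖ := by positivity
    linarith

/-- The trace preserving expectation of a finite index subalgebra gives a two-sided
quasi-basis. -/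
theorem exists_qbasis (N : VonNeumannAlgebra H) (ξ : H) (hξ : IsTraceVector N ξ)
    (P : VonNeumannAlgebra H) (hPN : ∀ x ∈ P, x ∈ N) (hind : FiniteIndex P N ξ) :
    ∃ (E : (H →L[ℂ] H) → (H →L[ℂ] H)) (k : ℕ) (m : Fin k → (H →L[ℂ] H)),
      QBasis N (P : Set (H →L[ℂ] H)) E k m := by
  obtain ⟨E, k, m, hE, hEtr, hm, hleft⟩ := hind
  have hstar : ∀ x ∈ N, E (star x) = star (E x) := by
    intro x hx
    have hsx : star x ∈ N := star_mem hx
    have hd : E (star x) - star (E x) ∈ P := sub_mem (hE _ hsx) (star_mem (hE x hx))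
    have hzero : ∀ y ∈ P, tr ξ ((E (star x) - star (E x)) * y) = 0 := by
      intro y hy
      rw [sub_mul, tr_sub, hEtr (star x) hsx y hy]
      have h1 : tr ξ (star (E x) * y) = tr ξ (star x * y) := by
        have h2 := hEtr x hx (star y) (star_mem hy)
        have h3 : tr ξ (star (E x) * y) = (starRingEnd ℂ) (tr ξ (star y * E x)) := by
          rw [← tr_star, star_mul, star_star]
        have h4 : tr ξ (star x * y) = (starRingEnd ℂ) (tr ξ (star y * x)) := by
          rw [← tr_star, star_mul, star_star]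
        rw [h3, h4, hξ.trace (star y) (star_mem (hPN y hy)) (E x) (hPN _ (hE x hx)), h2,
          hξ.trace x hx (star y) (star_mem (hPN y hy))]
      rw [h1, sub_self]
    have h5 := hzero (star (E (star x) - star (E x))) (star_mem hd)
    have h6 : tr ξ ((E (star x) - star (E x)) * star (E (star x) - star (E x))) =
        ((‖star (E (star x) - star (E x)) ξ‖ ^ 2 : ℝ) : ℂ) := by
      have := tr_star_mul_self ξ (star (E (star x) - star (E x)))
      rwa [star_star] at this
    rw [h6, hξ.norm_star (hPN _ hd)] at h5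
    have h7 : ‖(E (star x) - star (E x)) ξ‖ = 0 := by
      have : ‖(E (star x) - star (E x)) ξ‖ ^ 2 = 0 := by exact_mod_cast h5
      exact pow_eq_zero_iff two_ne_zero |>.1 this
    exact sub_eq_zero.1 (hξ.eq_zero (hPN _ hd) (norm_eq_zero.1 h7))
  refine ⟨E, k, m, fun y hy => hPN y hy, fun y hy => star_mem hy, hm, fun x hx => hE x hx, hleft, ?_⟩
  intro x hx
  have h1 := congrArg star (hleft (star x) (star_mem hx))
  rw [star_star, star_sum] at h1
  refine h1.trans (Finset.sum_congr rfl (fun j _ => ?_))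
  have h2 : star (m j) * star x = star (x * m j) := (star_mul _ _).symm
  rw [star_mul, h2, hstar _ (mul_mem hx (hm j)), star_star]

theorem pf_FIN (hW : T_W H) : T_FIN H := by
  intro N ξ hξ hUG U hbc P hPN hPF hind
  obtain ⟨E, k, m, hQ⟩ := exists_qbasis N ξ hξ P hPN hind
  by_contra hne
  apply hbc
  refine ⟨P, hPN, hPF, ?_, hne⟩
  rintro x hx ⟨C, hC⟩ hcomm
  obtain ⟨z, hz, hzP, hlim⟩ := hW N ξ hξ hUG _ E k m hQ U x C hx hC hcomm
  exact ⟨fun _ => z, fun _ => ⟨hz, hzP⟩, ⟨‖z‖, fun _ => le_rfl⟩, hlim⟩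

end Pool.Agent.H85.BC
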