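import Pool.Agent.H85.BC.Basic

/-!
# Rows DRC, NEAR, UG, FG of bcg_modules
-/

set_option autoImplicit false

open scoped InnerProductSpace Topology
open Filter

namespace Pool.Agent.H85.BC

variable {H : Type} [NormedAddCommGroup H] [InnerProductSpace ℂ H] [CompleteSpace H]

theorem pf_DRC (hCC : T_CC H) (hINT : T_INT H) : T_DRC H := by
  intro N hNf p hpN hp hp0 hp1 θ hθ hns y hy hcomm
  have hq : IsStarProjection (1 - p) := hp.one_sub
  have hqN : (1 - p : H →L[ℂ] H) ∈ N := sub_mem (one_mem N) hpN
  have hq0 : (1 - p : H →L[ℂ] H) ≠ 0 := fun h => hp1 (sub_eq_zero.1 h).symm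
  have hpp : p * p = p := hp.isIdempotentElem.eq
  have hqp : (1 - p) * p = 0 := by rw [sub_mul, one_mul, hpp, sub_self]
  have hpq : p * (1 - p) = 0 := by rw [mul_sub, mul_one, hpp, sub_self]
  have hqq : (1 - p) * (1 - p) = 1 - p := hq.isIdempotentElem.eq
  have hps : star p = p := hp.isSelfAdjoint.star_eq
  have hqs : star (1 - p) = 1 - p := hq.isSelfAdjoint.star_eq
  -- general facts for a `y` commuting with the diagonal
  have hgen : ∀ y ∈ N, (∀ x ∈ corner N p, y * (x + θ x) = (x + θ x) * y) →
      p * y * (1 - p) = 0 ∧ (∃ a : ℂ, p * y * p = a • p) ∧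
      (∃ b : ℂ, (1 - p) * y * (1 - p) = b • (1 - p)) := by
    intro y hy hcomm
    have hx : ∀ x ∈ corner N p, p * x = x ∧ x * p = x ∧ (1 - p) * x = 0 ∧ x * (1 - p) = 0 ∧
        (1 - p) * θ x = θ x ∧ θ x * (1 - p) = θ x ∧ p * θ x = 0 ∧ θ x * p = 0 := by
      intro x hx
      have h1 := corner_left hp hx
      have h2 := corner_right hp hx
      have h3 := corner_left hq (hθ.maps x hx)
      have h4 := corner_right hq (hθ.maps x hx)
      refine ⟨h1, h2, ?_, ?_, h3, h4, ?_, ?_⟩
      · rw [sub_mul, one_mul, h1, sub_self]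
      · rw [mul_sub, mul_one, h2, sub_self]
      · rw [← h3, ← mul_assoc, hpq, zero_mul]
      · rw [← h4, mul_assoc, hqp, mul_zero]
    refine ⟨?_, ?_, ?_⟩
    · apply hINT N hNf p hpN hp hp0 (1 - p) hqN hq hq0 θ hθ hns (p * y * (1 - p))
      · exact mul_mem (mul_mem hpN hy) hqN
      · calc p * (p * y * (1 - p)) * (1 - p) = (p * p) * y * ((1 - p) * (1 - p)) := by
              simp only [mul_assoc]
          _ = p * y * (1 - p) := by rw [hpp, hqq]
      · intro x hxc
        obtain ⟨h1, h2, h3, h4, h5, h6, h7, h8⟩ := hx x hxc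
        have h9 := hcomm x hxc
        have h10 : p * (y * (x + θ x)) * (1 - p) = p * ((x + θ x) * y) * (1 - p) := by rw [h9]
        have e1 : p * (y * (x + θ x)) * (1 - p) = p * y * θ x := by
          calc p * (y * (x + θ x)) * (1 - p) = p * y * (x * (1 - p)) + p * y * (θ x * (1 - p)) := by
                simp only [mul_add, add_mul, mul_assoc]
            _ = p * y * θ x := by rw [h4, h6, mul_zero, zero_add]
        have e2 : p * ((x + θ x) * y) * (1 - p) = x * y * (1 - p) := by
          calc p * ((x + θ x) * y) * (1 - p) = (p * x) * y * (1 - p) + (p * θ x) * y * (1 - p) := by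
                simp only [mul_add, add_mul, mul_assoc]
            _ = x * y * (1 - p) := by rw [h1, h7]; simp
        calc x * (p * y * (1 - p)) = (x * p) * y * (1 - p) := by simp only [mul_assoc]
          _ = x * y * (1 - p) := by rw [h2]
          _ = p * y * θ x := by rw [← e2, ← h10, e1]
          _ = p * y * ((1 - p) * θ x) := by rw [h5]
          _ = p * y * (1 - p) * θ x := by simp only [mul_assoc]
    · obtain ⟨a, ha⟩ := hCC N hNf p hpN hp (p * y * p) (corner_mk hpN hp hy) (by
        intro x hxc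
        obtain ⟨h1, h2, h3, h4, h5, h6, h7, h8⟩ := hx x hxc
        have h9 := hcomm x hxc
        have h10 : p * (y * (x + θ x)) * p = p * ((x + θ x) * y) * p := by rw [h9]
        have e1 : p * (y * (x + θ x)) * p = p * y * x := by
          calc p * (y * (x + θ x)) * p = p * y * (x * p) + p * y * (θ x * p) := by
                simp only [mul_add, add_mul, mul_assoc]
            _ = p * y * x := by rw [h2, h8, mul_zero, add_zero]
        have e2 : p * ((x + θ x) * y) * p = x * y * p := by
          calc p * ((x + θ x) * y) * p = (p * x) * y * p + (p * θ x) * y * p := by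
                simp only [mul_add, add_mul, mul_assoc]
            _ = x * y * p := by rw [h1, h7]; simp
        calc p * y * p * x = p * y * (p * x) := by simp only [mul_assoc]
          _ = p * y * x := by rw [h1]
          _ = x * y * p := by rw [← e1, h10, e2]
          _ = (x * p) * y * p := by rw [h2]
          _ = x * (p * y * p) := by simp only [mul_assoc])
      exact ⟨a, ha⟩
    · obtain ⟨b, hb⟩ := hCC N hNf (1 - p) hqN hq ((1 - p) * y * (1 - p))
        (corner_mk hqN hq hy) (by
        intro w hw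
        obtain ⟨x, hxc, rfl⟩ := hθ.surj w hw
        obtain ⟨h1, h2, h3, h4, h5, h6, h7, h8⟩ := hx x hxc
        have h9 := hcomm x hxc
        have h10 : (1 - p) * (y * (x + θ x)) * (1 - p) = (1 - p) * ((x + θ x) * y) * (1 - p) := by
          rw [h9]
        have e1 : (1 - p) * (y * (x + θ x)) * (1 - p) = (1 - p) * y * θ x := by
          calc (1 - p) * (y * (x + θ x)) * (1 - p)
              = (1 - p) * y * (x * (1 - p)) + (1 - p) * y * (θ x * (1 - p)) := by
                rw [mul_add, mul_add, add_mul]; simp only [mul_assoc]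
            _ = (1 - p) * y * θ x := by rw [h4, h6, mul_zero, zero_add]
        have e2 : (1 - p) * ((x + θ x) * y) * (1 - p) = θ x * y * (1 - p) := by
          calc (1 - p) * ((x + θ x) * y) * (1 - p)
              = ((1 - p) * x) * y * (1 - p) + ((1 - p) * θ x) * y * (1 - p) := by
                rw [add_mul, mul_add, add_mul]; simp only [mul_assoc]
            _ = θ x * y * (1 - p) := by rw [h3, h5]; simp
        calc (1 - p) * y * (1 - p) * θ x = (1 - p) * y * ((1 - p) * θ x) := by
              simp only [mul_assoc]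
          _ = (1 - p) * y * θ x := by rw [h5]
          _ = θ x * y * (1 - p) := by rw [← e1, h10, e2]
          _ = (θ x * (1 - p)) * y * (1 - p) := by rw [h6]
          _ = θ x * ((1 - p) * y * (1 - p)) := by simp only [mul_assoc])
      exact ⟨b, hb⟩
  obtain ⟨h12, ⟨a, ha⟩, ⟨b, hb⟩⟩ := hgen y hy hcomm
  have hcomm' : ∀ x ∈ corner N p, star y * (x + θ x) = (x + θ x) * star y := by
    intro x hx
    have h1 := congrArg star (hcomm (star x) (corner_star hp hx))
    simp only [star_mul, star_add, star_star, hθ.star x hx] at h1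
    exact h1.symm
  obtain ⟨h21, -, -⟩ := hgen (star y) (star_mem hy) hcomm'
  have h21' : (1 - p) * y * p = 0 := by
    have h1 := congrArg star h21
    rw [star_mul, star_mul, star_star, hps, hqs, star_zero] at h1
    rw [mul_assoc]
    exact h1
  refine ⟨a, b, ?_⟩
  calc y = p * y * p + (1 - p) * y * (1 - p) + p * y * (1 - p) + (1 - p) * y * p := by
        simp only [mul_sub, sub_mul, one_mul, mul_one]
        abel
    _ = a • p + b • (1 - p) := by rw [ha, hb, h12, h21', add_zero, add_zero]

theorem pf_NEAR : T_NEAR H := by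
  classical
  intro N ξ hξ hUG ε hε
  obtain ⟨F, hF, d, hd, hFd⟩ := hUG ε hε
  refine ⟨F, hF, d / 4, by positivity, ?_⟩
  intro A hA hnear
  choose! a haA ha using hnear
  refine ⟨F.image a, ?_, d / 2, by positivity, ?_⟩
  · intro g hg
    obtain ⟨y, hy, rfl⟩ := Finset.mem_image.1 hg
    exact haA y hy
  · intro x hx hx1 hxG
    refine hFd x hx hx1 (fun y hy => ?_)
    have h1 := hxG (a y) (Finset.mem_image_of_mem a hy)
    have h2 := ha y hy
    have hyN := hF y hy
    have haN := hA _ (haA y hy)
    have hsub : y - a y ∈ N := sub_mem hyN haN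
    have e1 : x * y - y * x = (x * a y - a y * x) + x * (y - a y) - (y - a y) * x := by
      simp only [mul_sub, sub_mul]
      abel
    have e2 : (x * y - y * x) ξ = (x * a y - a y * x) ξ + (x * (y - a y)) ξ -
        ((y - a y) * x) ξ := by rw [e1]; rfl
    have b1 : ‖(x * (y - a y)) ξ‖ < d / 4 := by
      refine lt_of_le_of_lt (norm_mul_left ξ _ _) ?_
      refine lt_of_le_of_lt (mul_le_mul_of_nonneg_right hx1 (norm_nonneg _)) ?_
      rw [one_mul]; exact h2
    have b2 : ‖((y - a y) * x) ξ‖ < d / 4 := by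
      refine lt_of_le_of_lt (hξ.norm_mul_right hsub hx) ?_
      refine lt_of_le_of_lt (mul_le_mul_of_nonneg_right hx1 (norm_nonneg _)) ?_
      rw [one_mul]; exact h2
    rw [e2]
    have b3 := norm_sub_le ((x * a y - a y * x) ξ + (x * (y - a y)) ξ) (((y - a y) * x) ξ)
    have b4 := norm_add_le ((x * a y - a y * x) ξ) ((x * (y - a y)) ξ)
    linarith

theorem pf_UG (hAPX : T_APX H) (hZAP : T_ZAP H) : T_UG H := by
  intro N ξ hN hG
  by_contra hUG
  apply hG
  intro F hF ε hε
  set M : ℝ := ∑ y ∈ F, ‖y‖ with hM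
  have hM0 : 0 ≤ M := Finset.sum_nonneg (fun y _ => norm_nonneg y)
  have hyM : ∀ y ∈ F, ‖y‖ ≤ M := fun y hy =>
    Finset.single_le_sum (f := fun y : H →L[ℂ] H => ‖y‖) (fun i _ => norm_nonneg i) hy
  set ε' : ℝ := ε / (4 * (M + 1)) with hε'
  have hε'pos : 0 < ε' := by positivity
  obtain ⟨η, hη, hZ⟩ := hZAP N ξ hN ε' hε'pos
  obtain ⟨u, huN, hu1, hu2, hutr, huF⟩ := hAPX N ξ hN.traceVector hN.factor hUG F hF
    (min η (ε / 2)) (by positivity)
  obtain ⟨u', hu'N, h1, h2, h3, h4⟩ := hZ u huN hu1 hu2 (lt_of_lt_of_le hutr (min_le_left _ _))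
  refine ⟨u', hu'N, h1, h2, h3, fun y hy => ?_⟩
  have hξ := hN.traceVector
  have hd : u - u' ∈ N := sub_mem huN hu'N
  have e1 : u' * y - y * u' = (u * y - y * u) - (u - u') * y + y * (u - u') := by
    simp only [mul_sub, sub_mul]
    abel
  have e2 : (u' * y - y * u') ξ = (u * y - y * u) ξ - ((u - u') * y) ξ +
      (y * (u - u')) ξ := by rw [e1]; rfl
  have hMε : M * ε' ≤ ε / 4 := by
    rw [hε', mul_div_assoc', div_le_div_iff₀ (by positivity) (by norm_num)]
    nlinarith
  have b1 : ‖((u - u') * y) ξ‖ ≤ ε / 4 := by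
    refine (hξ.norm_mul_right hd (hF y hy)).trans ?_
    exact (mul_le_mul (hyM y hy) h4.le (norm_nonneg _) hM0).trans hMε
  have b2 : ‖(y * (u - u')) ξ‖ ≤ ε / 4 := by
    refine (norm_mul_left ξ _ _).trans ?_
    exact (mul_le_mul (hyM y hy) h4.le (norm_nonneg _) hM0).trans hMε
  have b0 : ‖(u * y - y * u) ξ‖ < ε / 2 := lt_of_lt_of_le (huF y hy) (min_le_right _ _)
  rw [e2]
  have b3 := norm_add_le ((u * y - y * u) ξ - ((u - u') * y) ξ) ((y * (u - u')) ξ)
  have b4 := norm_sub_le ((u * y - y * u) ξ) (((u - u') * y) ξ)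
  linarith

theorem pf_FG (hCOV : T_COV H) : T_FG H := by
  classical
  intro N ξ hN hAPR
  have hξ := hN.traceVector
  set A : Finset (H →L[ℂ] H) → VonNeumannAlgebra H :=
    fun F => gen {y | y ∈ F ∧ y ∈ N} with hA
  have hmono : ∀ F G : Finset (H →L[ℂ] H), F ⊆ G → ∀ x ∈ A F, x ∈ A G := by
    intro F G hFG x hx
    exact gen_le (N := A G) (fun y hy => subset_gen ⟨hFG hy.1, hy.2⟩) hx
  have hD : DirDense N ξ A := by
    refine ⟨⟨∅⟩, ?_, ?_, ?_⟩
    · intro F x hx
      exact gen_le (fun y hy => hy.2) hx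
    · intro F G
      exact ⟨F ∪ G, hmono F _ Finset.subset_union_left, hmono G _ Finset.subset_union_right⟩
    · intro x hx ε hε
      refine ⟨{x}, x, subset_gen ⟨Finset.mem_singleton_self x, hx⟩, ?_⟩
      rw [sub_self, ContinuousLinearMap.zero_apply, norm_zero]
      exact hε
  obtain ⟨F, p, hpN, hp, hp0, hpc, hpx⟩ := hAPR _ A hD
  obtain ⟨n, c, hc, hcsum⟩ := hCOV N ξ hN p hpN hp hp0 1 (one_mem N) (.one _)
  have hpp : p * p = p := hp.isIdempotentElem.eq
  have hps : star p = p := hp.isSelfAdjoint.star_eq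
  refine ⟨(F.filter (· ∈ N)) ∪ {p} ∪ Finset.univ.image c, ?_, ?_⟩
  · intro g hg
    rcases Finset.mem_union.1 hg with hg | hg
    · rcases Finset.mem_union.1 hg with hg | hg
      · exact (Finset.mem_filter.1 hg).2
      · rw [Finset.mem_singleton.1 hg]; exact hpN
    · obtain ⟨i, -, rfl⟩ := Finset.mem_image.1 hg
      exact (hc i).1
  · intro Q hQ x hx
    have hFQ : ∀ y ∈ A F, y ∈ Q := fun y hy => gen_le (fun w hw => hQ w (by
      apply Finset.mem_union_left
      apply Finset.mem_union_left
      exact Finset.mem_filter.2 ⟨hw.1, hw.2⟩)) hy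
    have hpQ : p ∈ Q := hQ p (by
      apply Finset.mem_union_left
      apply Finset.mem_union_right
      exact Finset.mem_singleton_self p)
    have hcQ : ∀ i, c i ∈ Q := fun i => hQ _ (by
      apply Finset.mem_union_right
      exact Finset.mem_image.2 ⟨i, Finset.mem_univ i, rfl⟩)
    have hMQ : ∀ y ∈ gen ((A F : Set (H →L[ℂ] H)) ∪ {p}), y ∈ Q := fun y hy =>
      gen_le (fun w hw => by
        rcases hw with hw | hw
        · exact hFQ w hw
        · rw [Set.mem_singleton_iff.1 hw]; exact hpQ) hy
    have hij : ∀ i j, star (c i) * x * c j ∈ Q := by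
      intro i j
      have h1 : star (c i) * x * c j = p * (star (c i) * x * c j) * p := by
        have e1 : c j * p = c j := (hc j).2.1
        have e2 : p * star (c i) = star (c i) := by
          have := congrArg star (hc i).2.1
          rwa [star_mul, hps] at this
        calc star (c i) * x * c j = (p * star (c i)) * x * (c j * p) := by rw [e1, e2]
          _ = p * (star (c i) * x * c j) * p := by simp only [mul_assoc]
      rw [h1]
      exact hMQ _ (hpx _ (mul_mem (mul_mem (star_mem (hc i).1) hx) (hc j).1))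
    have hxe : x = ∑ i, ∑ j, c i * (star (c i) * x * c j) * star (c j) := by
      calc x = (∑ i, c i * star (c i)) * x * (∑ j, c j * star (c j)) := by
            rw [hcsum, one_mul, mul_one]
        _ = ∑ i, ∑ j, c i * (star (c i) * x * c j) * star (c j) := by
            rw [Finset.sum_mul, Finset.sum_mul]
            refine Finset.sum_congr rfl (fun i _ => ?_)
            rw [Finset.mul_sum]
            exact Finset.sum_congr rfl (fun j _ => by simp only [mul_assoc])
    rw [hxe]
    exact sum_mem' Q _ _ (fun i _ => sum_mem' Q _ _ (fun j _ =>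
      mul_mem (mul_mem (hcQ i) (hij i j)) (star_mem (hcQ j))))

end Pool.Agent.H85.BC
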