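import Pool.Agent.H85.BC.Basic

/-!
# Uniform form of part (iii)
-/

set_option autoImplicit false

open scoped InnerProductSpace Topology
open Filter

namespace Pool.Agent.H85.BC

variable {H : Type} [NormedAddCommGroup H] [InnerProductSpace ℂ H] [CompleteSpace H]

/-- Uniform subalgebra rigidity: for every `η > 0` there are a finite subset `F` of `N` and
`δ > 0` such that every von Neumann subalgebra `A` of `N` which `δ`-contains `F` in `2`-norm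
contains a corner of `N` of trace more than `1 - η`. -/
def T_UNI (H : Type) [NormedAddCommGroup H] [InnerProductSpace ℂ H] [CompleteSpace H] : Prop :=
  ∀ (N : VonNeumannAlgebra H) (ξ : H), IsIIOneFactor N ξ → UG N ξ →
  ∀ U : Ultrafilter ℕ, ¬ BCGood U N ξ → ∀ η : ℝ, 0 < η →
  ∃ F : Finset (H →L[ℂ] H), (∀ y ∈ F, y ∈ N) ∧ ∃ δ : ℝ, 0 < δ ∧
  ∀ A : VonNeumannAlgebra H, (∀ a ∈ A, a ∈ N) → (∀ y ∈ F, ∃ a ∈ A, ‖(y - a) ξ‖ < δ) →
  ∃ p ∈ N, IsStarProjection p ∧ 1 - η < ‖p ξ‖ ^ 2 ∧ (∀ a ∈ A, p * a = a * p) ∧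
    ∀ x ∈ N, p * x * p ∈ gen ((A : Set (H →L[ℂ] H)) ∪ {p})

theorem Tight.mono {A : Set (H →L[ℂ] H)} {N : VonNeumannAlgebra H} {ξ : H} {ε ε' : ℝ}
    (h : Tight A N ξ ε) (hle : ε ≤ ε') : Tight A N ξ ε' := by
  obtain ⟨G, hG, δ, hδ, h1⟩ := h
  exact ⟨G, hG, δ, hδ, fun x hx hx1 hxG => lt_of_lt_of_le (h1 x hx hx1 hxG) hle⟩

theorem pf_UNI (hNEAR : T_NEAR H) (hATOM : T_ATOM H) (hCGAP : T_CGAP H) (hQBC : T_QBC H) :
    T_UNI H := by
  intro N ξ hN hUG U hbc η hη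
  have hξ := hN.traceVector
  set ε : ℝ := min (1 / 4) (min (η / 2) 1) with hε
  have hεpos : 0 < ε := by
    rw [hε]; positivity
  have hε4 : ε ≤ 1 / 4 := min_le_left _ _
  have hεη : ε ≤ η / 2 := (min_le_right _ _).trans (min_le_left _ _)
  obtain ⟨F, hF, δ, hδ, hnear⟩ := hNEAR N ξ hξ hUG ε hεpos
  refine ⟨F, hF, δ, hδ, fun A hA hFA => ?_⟩
  have htight : Tight (A : Set (H →L[ℂ] H)) N ξ ε := hnear _ hA hFA
  have htight4 := htight.mono hε4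
  obtain ⟨p, hirr, h34⟩ := hATOM N ξ hξ A hA htight4
  have hgap := hCGAP N ξ hξ A htight4 p hirr h34 U
  have hp := hirr.proj
  refine ⟨p, hirr.mem, hp, ?_, hirr.comm, ?_⟩
  · obtain ⟨G, hG, d, hd, h1⟩ := htight
    have h2 := h1 p hirr.mem (proj_norm_le_one hp) (by
      intro g hg
      rw [hirr.comm g (hG g hg), sub_self, ContinuousLinearMap.zero_apply, norm_zero]
      exact hd)
    set t : ℝ := ‖p ξ‖ ^ 2 with ht
    have htr : tr ξ p = ((t : ℝ) : ℂ) := tr_proj ξ hp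
    have h3 : ‖p ξ - tr ξ p • ξ‖ ^ 2 = t - t ^ 2 := by
      have e1 : p ξ - tr ξ p • ξ = (p - tr ξ p • (1 : H →L[ℂ] H)) ξ := rfl
      have e2 : star (p - tr ξ p • (1 : H →L[ℂ] H)) * (p - tr ξ p • (1 : H →L[ℂ] H)) =
          p - ((2 * t : ℝ) : ℂ) • p + ((t ^ 2 : ℝ) : ℂ) • (1 : H →L[ℂ] H) := by
        rw [htr]
        simp only [star_sub, star_smul, star_one, hp.isSelfAdjoint.star_eq, sub_mul, mul_sub,
          smul_mul_assoc, mul_smul_comm, mul_one, one_mul, hp.isIdempotentElem.eq, smul_smul,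
          smul_sub]
        have e3 : star ((t : ℝ) : ℂ) = ((t : ℝ) : ℂ) := by
          simp
        rw [e3]
        have e4 : ((2 * t : ℝ) : ℂ) • p = ((t : ℝ) : ℂ) • p + ((t : ℝ) : ℂ) • p := by
          rw [← add_smul]; push_cast; ring_nf
        have e5 : ((t ^ 2 : ℝ) : ℂ) = ((t : ℝ) : ℂ) * ((t : ℝ) : ℂ) := by push_cast; ring
        rw [e4, e5]
        abel
      have e6 := tr_star_mul_self ξ (p - tr ξ p • (1 : H →L[ℂ] H))
      rw [e2, tr_add, tr_sub, tr_smul, tr_smul, hξ.tr_one, htr] at e6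
      have e7 : (((t - 2 * t * t + t ^ 2 : ℝ)) : ℂ) =
          ((‖(p - ((t : ℝ) : ℂ) • (1 : H →L[ℂ] H)) ξ‖ ^ 2 : ℝ) : ℂ) := by
        rw [← e6]; push_cast; ring
      have e8 : t - 2 * t * t + t ^ 2 = ‖(p - ((t : ℝ) : ℂ) • (1 : H →L[ℂ] H)) ξ‖ ^ 2 := by
        exact_mod_cast e7
      rw [e1, htr, ← e8]
      ring
    have h4 : ‖p ξ - tr ξ p • ξ‖ ^ 2 < ε ^ 2 := pow_lt_pow_left₀ h2 (norm_nonneg _) two_ne_zero
    rw [h3] at h4
    have ht34 : 3 / 4 ≤ t := h34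
    have h5 : ε ^ 2 ≤ ε * (1 / 4) := by
      rw [sq]; exact mul_le_mul_of_nonneg_left hε4 hεpos.le
    nlinarith
  · intro x hx
    by_contra hcon
    exact hbc (hQBC N ξ hN A p hirr h34 U hgap ⟨x, hx, hcon⟩)

end Pool.Agent.H85.BC
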