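import Pool.Agent.H85.BC.W
import Pool.Agent.H85.BC.QBC
import Pool.Agent.H85.BC.RowsD
import Pool.Agent.H85.BC.RowsE
import Pool.Agent.H85.BC.Uni
import Pool.Agent.H68.BC.WL
import Pool.Agent.H68.BC.NM
import Pool.Agent.H68.BC.PRD
import Pool.Agent.H68.BC.SCL
import Pool.Agent.H35.BC.SL
import Pool.Agent.H67.BC.SP
import Pool.Agent.H67.BC.MAXV
import Pool.Agent.H67.BC.ENF
import Pool.Agent.H11.BCG.PI
import Pool.Agent.H11.BCG.WC
import Pool.Agent.H11.BCG.APX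
import Pool.Agent.H39.BC.SCAL
import Pool.Agent.H94.BC.MINP
import Pool.Agent.H75.BC.HALF
import Pool.Agent.H75.BC.CMP
import Pool.Agent.H75.BC.ATOM
import Pool.Agent.H19.BC.INT
import Pool.Agent.H19.BC.TZ
import Pool.Agent.H30.BC.PART
import Pool.Agent.H30.BC.COV
import Pool.Agent.H30.BC.EXP
import Pool.Agent.H27.BC.GEN
import Pool.Agent.H27.BC.PAU
import Pool.Agent.H27.BC.ZAP
import Pool.Agent.H27.BC.NMD
import Pool.Agent.H7.BC.ARC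
import Pool.Agent.H2.BC.BES
import Pool.Agent.H5.BCG.WU
import Pool.Agent.H13.BC.CC
import Pool.Agent.H46.BC.APR
import Pool.Agent.H20.BC.SPN
import Pool.Agent.H74.BC.QB
import Pool.Agent.H49.BC.CGAP

/-!
# Bicommutant-good II₁ factors: assembly
-/

set_option autoImplicit false

namespace Pool.Agent.H85.BC

variable (H : Type) [NormedAddCommGroup H] [InnerProductSpace ℂ H] [CompleteSpace H]

theorem f_WL : T_WL H := Pool.Agent.H68.BC.pf_WL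
theorem f_SL : T_SL H := Pool.Agent.H35.BC.pf_SL
theorem f_SP : T_SP H := Pool.Agent.H67.BC.pf_SP
theorem f_MAXV : T_MAXV H := Pool.Agent.H67.BC.pf_MAXV (f_SL H)
theorem f_ENF : T_ENF H := Pool.Agent.H67.BC.pf_ENF
theorem f_PI : T_PI H := Pool.Agent.H11.BCG.pf_PI (f_SP H)
theorem f_SCAL : T_SCAL H := Pool.Agent.H39.BC.pf_SCAL (f_SP H)
theorem f_MINP : T_MINP H := Pool.Agent.H94.BC.pf_MINP H (f_ENF H)
theorem f_NM : T_NM H := Pool.Agent.H68.BC.pf_NM (f_SCAL H) (f_MINP H)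
theorem f_HALF : T_HALF H := Pool.Agent.H75.BC.pf_HALF (f_MAXV H)
theorem f_CMP : T_CMP H := Pool.Agent.H75.BC.pf_CMP (f_MAXV H) (f_ENF H) (f_PI H)
theorem f_EQV : T_EQV H := Pool.Agent.H19.BC.pf_EQV (f_CMP H)
theorem f_PART : T_PART H := Pool.Agent.H30.BC.pf_PART (f_NM H) (f_HALF H)
theorem f_COV : T_COV H := Pool.Agent.H30.BC.pf_COV (f_PART H) (f_CMP H)
theorem f_EXP : T_EXP H := Pool.Agent.H30.BC.pf_EXP
theorem f_WC : T_WC H := Pool.Agent.H11.BCG.pf_WC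
theorem f_SCL : T_SCL H := Pool.Agent.H68.BC.pf_SCL (f_WL H) (f_WC H)
theorem f_PRD : T_PRD H := Pool.Agent.H68.BC.pf_PRD
theorem f_GEN : T_GEN H := Pool.Agent.H27.BC.pf_GEN (f_EXP H) (f_SCL H) (f_PRD H)
theorem f_APX : T_APX H := Pool.Agent.H11.BCG.pf_APX (f_GEN H)
theorem f_ARC : T_ARC H := Pool.Agent.H7.BC.pf_ARC (f_SP H)
theorem f_PAU : T_PAU H := Pool.Agent.H27.BC.pf_PAU (f_NM H) (f_HALF H) (f_EQV H)
theorem f_ZAP : T_ZAP H := Pool.Agent.H27.BC.pf_ZAP (f_ARC H) (f_PAU H) (f_NM H) (f_HALF H)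
theorem f_UG : T_UG H := pf_UG (f_APX H) (f_ZAP H)
theorem f_BES : T_BES H := Pool.Agent.H2.BC.pf_BES
theorem f_WU : T_WU H := Pool.Agent.H5.BCG.pf_WU pf_COM
theorem f_W : T_W H := pf_W (f_WL H) (f_WC H) (f_WU H) pf_LOW (f_BES H)
theorem f_CC : T_CC H := Pool.Agent.H13.BC.pf_CC (f_SP H) (f_ENF H)
theorem f_SPN : T_SPN H := Pool.Agent.H20.BC.pf_SPN (f_SP H)
theorem f_TZ : T_TZ H := Pool.Agent.H19.BC.pf_TZ
theorem f_INT : T_INT H := Pool.Agent.H19.BC.pf_INT (f_CC H)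
theorem f_QB : T_QB H := Pool.Agent.H74.BC.pf_QB (f_COV H)
theorem f_DRC : T_DRC H := pf_DRC (f_CC H) (f_INT H)
theorem f_SPX : T_SPX H := Pool.Agent.H19.BC.pf_SPX (f_COV H)
theorem f_ATOM : T_ATOM H := Pool.Agent.H75.BC.pf_ATOM (f_MAXV H) (f_SCAL H)
theorem f_CGAP : T_CGAP H := Pool.Agent.H49.BC.pf_CGAP (f_GEN H)
theorem f_NMD : T_NMD H := Pool.Agent.H27.BC.pf_NMD (f_NM H) (f_SCAL H) (f_MINP H)
theorem f_QBC : T_QBC H := pf_QBC (f_HALF H) (f_EQV H) (f_NMD H)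
theorem f_UNI : T_UNI H := pf_UNI pf_NEAR (f_ATOM H) (f_CGAP H) (f_QBC H)

end Pool.Agent.H85.BC
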