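import Pool.Agent.H85.BC.All
import Pool.Agent.H46.BC.SCP
import Pool.Agent.H20.BC.SCT
import Pool.Agent.H99.BC.BCT
import Pool.Agent.H4.BC.AMP

/-!
# Bicommutant-good II₁ factors: assembly of the rows for corner isomorphisms
-/

set_option autoImplicit false

namespace Pool.Agent.H85.BC

variable (H : Type) [NormedAddCommGroup H] [InnerProductSpace ℂ H] [CompleteSpace H]

theorem f_SCP : T_SCP H := Pool.Agent.H46.BC.pf_SCP (f_NM H) (f_HALF H) (f_EQV H)
theorem f_SCT : T_SCT H := Pool.Agent.H20.BC.pf_SCT (f_SCP H) (f_SPN H)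
theorem f_BCT : T_BCT H := Pool.Agent.H99.BC.pf_BCT (f_W H) (f_QB H) (f_DRC H) (f_SCT H) (f_TZ H)
theorem f_AMP : T_AMP H := Pool.Agent.H4.BC.pf_AMP (f_NM H) (f_HALF H) (f_PART H) (f_EQV H)
  (f_SCP H)

end Pool.Agent.H85.BC
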