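import Mathlib

/-!
# Bicommutant-good II₁ factors (MP_0e7a83_an): definitions

A II₁ factor is given in its standard representation: a von Neumann algebra `N` on a
Hilbert space `H` with a cyclic unit trace vector `ξ` (`H = L²(N, τ)`, `ξ = 1`), with
trivial centre, and infinite dimensional.  The trace is `τ(x) = ⟨ξ, x ξ⟩` and
`‖x‖₂ = ‖x ξ‖`.
-/

set_option autoImplicit false

open scoped InnerProductSpace Topology
open Filter

namespace Pool.Agent.H85.BC

variable {H : Type*} [NormedAddCommGroup H] [InnerProductSpace ℂ H] [CompleteSpace H]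

/-- The vector functional `τ(x) = ⟨ξ, x ξ⟩`. -/
noncomputable def tr (ξ : H) (x : H →L[ℂ] H) : ℂ := inner ℂ ξ (x ξ)

/-- `ξ` is a cyclic unit trace vector of the von Neumann algebra `N`. -/
structure IsTraceVector (N : VonNeumannAlgebra H) (ξ : H) : Prop where
  norm_eq : ‖ξ‖ = 1
  cyclic : ∀ η : H, ∀ ε : ℝ, 0 < ε → ∃ x ∈ N, ‖η - x ξ‖ < ε
  trace : ∀ x ∈ N, ∀ y ∈ N, tr ξ (x * y) = tr ξ (y * x)

/-- `N` is a factor: its centre consists of the scalars. -/
def IsFactor (N : VonNeumannAlgebra H) : Prop :=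
  ∀ x ∈ N, (∀ y ∈ N, x * y = y * x) → ∃ c : ℂ, x = c • (1 : H →L[ℂ] H)

/-- `N` is a II₁ factor in standard form, with trace vector `ξ`. -/
structure IsIIOneFactor (N : VonNeumannAlgebra H) (ξ : H) : Prop where
  traceVector : IsTraceVector N ξ
  factor : IsFactor N
  infinite : ¬ ∃ F : Finset (H →L[ℂ] H), ∀ x ∈ N, x ∈ Submodule.span ℂ (F : Set (H →L[ℂ] H))

/-- Murray and von Neumann's property Gamma: for all finitely many elements of `N` and
every `ε > 0` there is a unitary of trace `0` in `N` whose commutators with the given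
elements have `2`-norm less than `ε`. -/
def HasGamma (N : VonNeumannAlgebra H) (ξ : H) : Prop :=
  ∀ F : Finset (H →L[ℂ] H), (∀ y ∈ F, y ∈ N) → ∀ ε : ℝ, 0 < ε →
    ∃ u ∈ N, star u * u = 1 ∧ u * star u = 1 ∧ tr ξ u = 0 ∧
      ∀ y ∈ F, ‖(u * y - y * u) ξ‖ < ε

/-- The relative commutant `Q' ∩ N`. -/
def relComm (Q : Set (H →L[ℂ] H)) (N : VonNeumannAlgebra H) : Set (H →L[ℂ] H) :=
  {x | x ∈ N ∧ ∀ y ∈ Q, x * y = y * x}

/-- `Q` has w-spectral gap in `N`: `Q' ∩ N^U = (Q' ∩ N)^U`.  Every bounded sequence in `N`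
that asymptotically commutes (along `U`, in `2`-norm) with every element of `Q` is equal,
along `U`, to a bounded sequence in `Q' ∩ N`. -/
def WGap (U : Ultrafilter ℕ) (Q : VonNeumannAlgebra H) (N : VonNeumannAlgebra H) (ξ : H) :
    Prop :=
  ∀ x : ℕ → (H →L[ℂ] H), (∀ n, x n ∈ N) → (∃ C : ℝ, ∀ n, ‖x n‖ ≤ C) →
    (∀ y ∈ Q, Tendsto (fun n => ‖(x n * y - y * x n) ξ‖) (U : Filter ℕ) (𝓝 0)) →
    ∃ z : ℕ → (H →L[ℂ] H), (∀ n, z n ∈ relComm (Q : Set (H →L[ℂ] H)) N) ∧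
      (∃ C : ℝ, ∀ n, ‖z n‖ ≤ C) ∧
      Tendsto (fun n => ‖(x n - z n) ξ‖) (U : Filter ℕ) (𝓝 0)

/-- `N` is bc-good: some subfactor `Q` of `N` has w-spectral gap in `N` and differs from its
relative bicommutant `(Q' ∩ N)' ∩ N`. -/
def BCGood (U : Ultrafilter ℕ) (N : VonNeumannAlgebra H) (ξ : H) : Prop :=
  ∃ Q : VonNeumannAlgebra H, (∀ x ∈ Q, x ∈ N) ∧ IsFactor Q ∧ WGap U Q N ξ ∧
    relComm (relComm (Q : Set (H →L[ℂ] H)) N) N ≠ (Q : Set (H →L[ℂ] H))

/-- The corner `p N p`. -/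
def corner (N : VonNeumannAlgebra H) (p : H →L[ℂ] H) : Set (H →L[ℂ] H) :=
  {x | x ∈ N ∧ p * x * p = x}

/-- `θ` is a `*`-isomorphism of the corner `p N p` onto the corner `q N q`. -/
structure CornerIso (N : VonNeumannAlgebra H) (p q : H →L[ℂ] H)
    (θ : (H →L[ℂ] H) → (H →L[ℂ] H)) : Prop where
  maps : ∀ x ∈ corner N p, θ x ∈ corner N q
  inj : ∀ x ∈ corner N p, ∀ y ∈ corner N p, θ x = θ y → x = y
  surj : ∀ y ∈ corner N q, ∃ x ∈ corner N p, θ x = y
  add : ∀ x ∈ corner N p, ∀ y ∈ corner N p, θ (x + y) = θ x + θ y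
  smul : ∀ c : ℂ, ∀ x ∈ corner N p, θ (c • x) = c • θ x
  mul : ∀ x ∈ corner N p, ∀ y ∈ corner N p, θ (x * y) = θ x * θ y
  star : ∀ x ∈ corner N p, θ (star x) = star (θ x)

/-- `θ` is implemented by a partial isometry of `N` from `p` onto `q`. -/
def Spatial (N : VonNeumannAlgebra H) (p q : H →L[ℂ] H)
    (θ : (H →L[ℂ] H) → (H →L[ℂ] H)) : Prop :=
  ∃ v ∈ N, star v * v = p ∧ v * star v = q ∧ ∀ x ∈ corner N p, θ x = v * x * star v

/-- The subalgebra `P` of `N` has finite (Jones) index: the trace preserving conditional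
expectation `E : N → P` has a finite Pimsner-Popa (quasi-) basis `m`. -/
def FiniteIndex (P N : VonNeumannAlgebra H) (ξ : H) : Prop :=
  ∃ (E : (H →L[ℂ] H) → (H →L[ℂ] H)) (k : ℕ) (m : Fin k → (H →L[ℂ] H)),
    (∀ x ∈ N, E x ∈ P) ∧ (∀ x ∈ N, ∀ y ∈ P, tr ξ (E x * y) = tr ξ (x * y)) ∧
    (∀ j, m j ∈ N) ∧ ∀ x ∈ N, x = ∑ j, m j * E (star (m j) * x)

/-- `N` is generated, as a von Neumann algebra, by finitely many elements. -/
def FinGen (N : VonNeumannAlgebra H) : Prop :=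
  ∃ G : Finset (H →L[ℂ] H), (∀ g ∈ G, g ∈ N) ∧
    ∀ Q : VonNeumannAlgebra H, (∀ g ∈ G, g ∈ Q) → ∀ x ∈ N, x ∈ Q

/-- The commutant of `S ∪ S*`, as a von Neumann algebra. -/
noncomputable def comm (S : Set (H →L[ℂ] H)) : VonNeumannAlgebra H where
  toStarSubalgebra := StarSubalgebra.centralizer ℂ S
  centralizer_centralizer' := by
    have h : (StarSubalgebra.centralizer ℂ S).carrier = (S ∪ star S).centralizer :=
      StarSubalgebra.coe_centralizer ℂ S
    rw [h, Set.centralizer_centralizer_centralizer]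

theorem mem_comm {S : Set (H →L[ℂ] H)} {z : H →L[ℂ] H} :
    z ∈ comm S ↔ ∀ y ∈ S, y * z = z * y ∧ star y * z = z * star y :=
  StarSubalgebra.mem_centralizer_iff ℂ

/-- The von Neumann algebra generated by `S`. -/
noncomputable def gen (S : Set (H →L[ℂ] H)) : VonNeumannAlgebra H := (comm S).commutant

/-- Uniform form of fullness: for every `ε > 0` there are finitely many elements of `N` such
that every contraction of `N` which almost commutes with them is `ε`-close to a scalar. -/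
def UG (N : VonNeumannAlgebra H) (ξ : H) : Prop :=
  ∀ ε : ℝ, 0 < ε → ∃ F : Finset (H →L[ℂ] H), (∀ y ∈ F, y ∈ N) ∧ ∃ δ : ℝ, 0 < δ ∧
    ∀ x ∈ N, ‖x‖ ≤ 1 → (∀ y ∈ F, ‖(x * y - y * x) ξ‖ < δ) → ‖x ξ - tr ξ x • ξ‖ < ε

/-- The corner `p M p` has trivial centre. -/
def FactorCorner (M : VonNeumannAlgebra H) (p : H →L[ℂ] H) : Prop :=
  ∀ x ∈ corner M p, (∀ y ∈ corner M p, x * y = y * x) → ∃ c : ℂ, x = c • p

/-- Every nonzero projection of `M` below `p` has a proper nonzero subprojection in `M`. -/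
def NoMin (M : VonNeumannAlgebra H) (p : H →L[ℂ] H) : Prop :=
  ∀ f ∈ M, IsStarProjection f → p * f = f → f ≠ 0 →
    ∃ e ∈ M, IsStarProjection e ∧ f * e = e ∧ e ≠ 0 ∧ e ≠ f

end Pool.Agent.H85.BC
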