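import Pool.Agent.H85.BC.RowsD

/-!
# Finite index subfactors of a factor which is not bc-good are commutants of matrix units
-/

set_option autoImplicit false

open scoped InnerProductSpace Topology
open Filter

namespace Pool.Agent.H85.BC

variable {H : Type} [NormedAddCommGroup H] [InnerProductSpace ℂ H] [CompleteSpace H]

/-- A system of `n × n` matrix units in `N`. -/
structure MatrixUnits (N : VonNeumannAlgebra H) (n : ℕ)
    (e : Fin n → Fin n → (H →L[ℂ] H)) : Prop where
  mem : ∀ i j, e i j ∈ N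
  star : ∀ i j, star (e i j) = e j i
  mul_same : ∀ i j l, e i j * e j l = e i l
  mul_ne : ∀ i j k l, j ≠ k → e i j * e k l = 0
  sum : ∑ i, e i i = 1

/-- Projections whose sum is `1` are pairwise orthogonal. -/
theorem orth_of_sum_one {n : ℕ} (g : Fin n → (H →L[ℂ] H)) (hg : ∀ i, IsStarProjection (g i))
    (hsum : ∑ i, g i = 1) (i j : Fin n) (hij : i ≠ j) : g i * g j = 0 := by
  have key : ∀ ζ : H, g j ζ = ζ → g i ζ = 0 := by
    intro ζ hζ
    have h1 : ∑ k, ‖g k ζ‖ ^ 2 = ‖ζ‖ ^ 2 := by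
      have e1 : ∀ k, ((‖g k ζ‖ ^ 2 : ℝ) : ℂ) = inner ℂ ζ (g k ζ) := by
        intro k
        have := tr_star_mul_self ζ (g k)
        rw [(hg k).isSelfAdjoint.star_eq, (hg k).isIdempotentElem.eq] at this
        exact this.symm
      have e2 : (((∑ k, ‖g k ζ‖ ^ 2 : ℝ)) : ℂ) = ((‖ζ‖ ^ 2 : ℝ) : ℂ) := by
        push_cast
        have e3 : ∀ k, ((‖g k ζ‖ : ℂ)) ^ 2 = inner ℂ ζ (g k ζ) := by
          intro k; rw [← e1 k]; push_cast; rfl
        simp only [e3]
        rw [← inner_sum]
        have e4 : ∑ k, g k ζ = ζ := by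
          have := congrArg (fun T : H →L[ℂ] H => T ζ) hsum
          simpa [ContinuousLinearMap.sum_apply] using this
        rw [e4, inner_self_eq_norm_sq_to_K]
        rfl
      exact_mod_cast e2
    have h2 : ‖g i ζ‖ ^ 2 + ‖g j ζ‖ ^ 2 ≤ ∑ k, ‖g k ζ‖ ^ 2 := by
      have h3 : ({i, j} : Finset (Fin n)).sum (fun k => ‖g k ζ‖ ^ 2) ≤ ∑ k, ‖g k ζ‖ ^ 2 :=
        Finset.sum_le_sum_of_subset_of_nonneg (Finset.subset_univ _)
          (fun k _ _ => by positivity)
      rwa [Finset.sum_pair hij] at h3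
    rw [h1, hζ] at h2
    have h4 : ‖g i ζ‖ ^ 2 = 0 := le_antisymm (by linarith) (by positivity)
    exact norm_eq_zero.1 (pow_eq_zero_iff two_ne_zero |>.1 h4)
  ext ζ
  have h5 : g j (g j ζ) = g j ζ := by
    have := congrArg (fun T : H →L[ℂ] H => T ζ) (hg j).isIdempotentElem.eq
    simpa using this
  simpa using key _ h5

/-- Without minimal projections there are arbitrarily many orthogonal nonzero projections. -/
theorem many_orth (B : VonNeumannAlgebra H) (hB : NoMin B 1) (h1 : (1 : H →L[ℂ] H) ≠ 0)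
    (r : ℕ) : ∃ f : H →L[ℂ] H, f ∈ B ∧ IsStarProjection f ∧ f ≠ 0 ∧
    ∃ g : Fin r → (H →L[ℂ] H), (∀ i, g i ∈ B ∧ IsStarProjection (g i) ∧ g i ≠ 0) ∧
      IsStarProjection (f + ∑ i, g i) := by
  induction r with
  | zero => exact ⟨1, one_mem B, .one _, h1, fun i => i.elim0, fun i => i.elim0,
      by simp⟩
  | succ r ih =>
    obtain ⟨f, hfB, hf, hf0, g, hg, hsum⟩ := ih
    obtain ⟨e, heB, he, hfe, he0, hef⟩ := hB f hfB hf (one_mul f) hf0
    refine ⟨e, heB, he, he0, Fin.snoc g (f - e), ?_, ?_⟩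
    · intro i
      refine Fin.lastCases ?_ (fun j => ?_) i
      · rw [Fin.snoc_last]
        exact ⟨sub_mem hfB heB, proj_sub he hf hfe, fun h => hef (sub_eq_zero.1 h).symm⟩
      · rw [Fin.snoc_castSucc]
        exact hg j
    · rw [Fin.sum_univ_castSucc]
      simp only [Fin.snoc_castSucc, Fin.snoc_last]
      have : e + (∑ i, g i + (f - e)) = f + ∑ i, g i := by abel
      rw [this]
      exact hsum

/-- The relative commutant as a von Neumann algebra. -/
theorem mem_relComm_iff {P N : VonNeumannAlgebra H} {x : H →L[ℂ] H} :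
    x ∈ comm ((P : Set (H →L[ℂ] H)) ∪ (N.commutant : Set (H →L[ℂ] H))) ↔
      x ∈ relComm (P : Set (H →L[ℂ] H)) N := by
  rw [mem_comm]
  constructor
  · intro h
    refine ⟨?_, fun y hy => ((h y (Or.inl hy)).1).symm⟩
    apply mem_of_commutant
    intro t ht
    exact (h t (Or.inr (VonNeumannAlgebra.mem_commutant_iff.2 ht))).1
  · rintro ⟨hxN, hxc⟩ y hy
    rcases hy with hy | hy
    · exact ⟨(hxc y hy).symm, (hxc (Star.star y) (star_mem hy)).symm⟩
    · have h1 := VonNeumannAlgebra.mem_commutant_iff.1 hy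
      exact ⟨(h1 x hxN).symm, (commutes_star h1 x hxN).symm⟩

/-- Part (i) in structural form. -/
def T_MU (H : Type) [NormedAddCommGroup H] [InnerProductSpace ℂ H] [CompleteSpace H] : Prop :=
  ∀ (N : VonNeumannAlgebra H) (ξ : H), IsTraceVector N ξ → IsFactor N → UG N ξ →
  ∀ U : Ultrafilter ℕ, ¬ BCGood U N ξ → ∀ P : VonNeumannAlgebra H, (∀ x ∈ P, x ∈ N) →
  IsFactor P → FiniteIndex P N ξ →
  ∃ (n : ℕ) (e : Fin n → Fin n → (H →L[ℂ] H)), MatrixUnits N n e ∧
    ∀ x : H →L[ℂ] H, x ∈ P ↔ x ∈ N ∧ ∀ i j, x * e i j = e i j * x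

/-- Finite quasi-bases bound the number of orthogonal projections of the relative
commutant. -/
theorem orth_bound (N : VonNeumannAlgebra H) (hNf : IsFactor N) (ξ : H) (hξ : IsTraceVector N ξ)
    (P : Set (H →L[ℂ] H)) (E : (H →L[ℂ] H) → (H →L[ℂ] H)) (k : ℕ) (m : Fin k → (H →L[ℂ] H))
    (hQ : QBasis N P E k m) :
    ∃ R : ℕ, ∀ (r : ℕ) (g : Fin r → (H →L[ℂ] H)),
      (∀ i, g i ∈ N ∧ (∀ y ∈ P, g i * y = y * g i) ∧ IsStarProjection (g i) ∧ g i ≠ 0) →
      IsStarProjection (∑ i, g i) → r ≤ R := by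
  set Φ : (H →L[ℂ] H) → (H →L[ℂ] H) := fun x => ∑ j, m j * x * star (m j) with hΦ
  have hΦN : ∀ x ∈ N, Φ x ∈ N := fun x hx => sum_mem' N _ _ (fun j _ =>
    mul_mem (mul_mem (hQ.mem j) hx) (star_mem (hQ.mem j)))
  have hΦc : ∀ x ∈ N, (∀ y ∈ P, x * y = y * x) → ∃ c : ℂ, Φ x = c • (1 : H →L[ℂ] H) := by
    intro x hx hxP
    apply hNf _ (hΦN x hx)
    intro a ha
    have h1 := pf_COM N P E k m hQ a ha x hx
    have h2 : ∑ i, ∑ j, m i * (E (star (m i) * a * m j) * x - x * E (star (m i) * a * m j)) *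
        star (m j) = 0 := by
      refine Finset.sum_eq_zero (fun i _ => Finset.sum_eq_zero (fun j _ => ?_))
      have h3 : E (star (m i) * a * m j) ∈ P :=
        hQ.exp _ (mul_mem (mul_mem (star_mem (hQ.mem i)) ha) (hQ.mem j))
      rw [hxP _ h3, sub_self, mul_zero, zero_mul]
    rw [h2] at h1
    exact (sub_eq_zero.1 h1).symm
  have h1e : (1 : H →L[ℂ] H) = ∑ j, m j * E (star (m j)) := by
    have := hQ.left 1 (one_mem N)
    simpa only [mul_one] using this
  set D : ℝ := ∑ j, ‖E (star (m j))‖ with hD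
  have hD0 : 0 ≤ D := Finset.sum_nonneg (fun j _ => norm_nonneg _)
  have hDj : ∀ j, ‖E (star (m j))‖ ≤ D := fun j =>
    Finset.single_le_sum (f := fun j => ‖E (star (m j))‖) (fun i _ => norm_nonneg _)
      (Finset.mem_univ j)
  have hHne : Nontrivial H := by
    refine ⟨ξ, 0, fun h => ?_⟩
    have := hξ.norm_eq
    rw [h, norm_zero] at this
    exact zero_ne_one this
  -- lower bound for a projection
  have hlow : ∀ e : H →L[ℂ] H, e ∈ N → (∀ y ∈ P, e * y = y * e) → IsStarProjection e → e ≠ 0 →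
      ∀ c : ℂ, Φ e = c • (1 : H →L[ℂ] H) → 1 ≤ D ^ 2 * (k * (k * c.re)) := by
    intro e heN heP he he0 c hc
    have hen : ‖e‖ = 1 := by
      have h2 : ‖star e * e‖ = ‖e‖ * ‖e‖ := CStarRing.norm_star_mul_self
      rw [he.isSelfAdjoint.star_eq, he.isIdempotentElem.eq] at h2
      have h3 : ‖e‖ ≠ 0 := fun h => he0 (norm_eq_zero.1 h)
      have h4 : ‖e‖ * 1 = ‖e‖ * ‖e‖ := by rw [mul_one]; exact h2
      exact (mul_left_cancel₀ h3 h4).symm
    have hsum : e = ∑ j, (m j * e) * E (star (m j)) := by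
      calc e = 1 * e := (one_mul e).symm
        _ = (∑ j, m j * E (star (m j))) * e := by rw [← h1e]
        _ = ∑ j, (m j * e) * E (star (m j)) := by
            rw [Finset.sum_mul]
            refine Finset.sum_congr rfl (fun j _ => ?_)
            rw [mul_assoc, mul_assoc, heP _ (hQ.exp _ (star_mem (hQ.mem j)))]
    have h5 : 1 ≤ D * ∑ j, ‖m j * e‖ := by
      calc (1 : ℝ) = ‖e‖ := hen.symm
        _ = ‖∑ j, (m j * e) * E (star (m j))‖ := by rw [← hsum]
        _ ≤ ∑ j, ‖(m j * e) * E (star (m j))‖ := norm_sum_le _ _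
        _ ≤ ∑ j, ‖m j * e‖ * D := Finset.sum_le_sum (fun j _ => (norm_mul_le _ _).trans
            (mul_le_mul_of_nonneg_left (hDj j) (norm_nonneg _)))
        _ = D * ∑ j, ‖m j * e‖ := by rw [← Finset.sum_mul, mul_comm]
    have h6 : (∑ j, ‖m j * e‖) ^ 2 ≤ k * ∑ j, ‖m j * e‖ ^ 2 := by
      have := sq_sum_le_card_mul_sum_sq (s := (Finset.univ : Finset (Fin k)))
        (f := fun j => ‖m j * e‖)
      rw [Finset.card_univ, Fintype.card_fin] at this
      exact this
    have h7 : ∀ j, ‖m j * e‖ ^ 2 ≤ c.re := by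
      intro j
      have hstar : ‖m j * e‖ = ‖star (m j * e)‖ := (norm_star _).symm
      have hcre : 0 ≤ c.re := by
        obtain ⟨ζ, hζ⟩ := exists_ne (0 : H)
        have h8 : (inner ℂ ζ (Φ e ζ) : ℂ) = ∑ i, ((‖star (m i * e) ζ‖ ^ 2 : ℝ) : ℂ) := by
          simp only [hΦ, ContinuousLinearMap.sum_apply, inner_sum]
          refine Finset.sum_congr rfl (fun i _ => ?_)
          have h9 : m i * e * star (m i) = star (star (m i * e)) * star (m i * e) := by
            rw [star_star, star_mul, he.isSelfAdjoint.star_eq]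
            calc m i * e * star (m i) = m i * (e * e) * star (m i) := by
                  rw [he.isIdempotentElem.eq]
              _ = m i * e * (e * star (m i)) := by simp only [mul_assoc]
          rw [h9]
          exact tr_star_mul_self ζ (star (m i * e))
        rw [hc] at h8
        have h10 : (inner ℂ ζ ((c • (1 : H →L[ℂ] H)) ζ) : ℂ) = c * ((‖ζ‖ ^ 2 : ℝ) : ℂ) := by
          rw [ContinuousLinearMap.smul_apply, inner_smul_right]
          simp [inner_self_eq_norm_sq_to_K]
        rw [h10] at h8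
        have h11 := congrArg Complex.re h8
        rw [Complex.re_mul_ofReal, Complex.re_sum] at h11
        have h12 : 0 < ‖ζ‖ ^ 2 := by positivity
        have h13 : 0 ≤ c.re * ‖ζ‖ ^ 2 := by
          rw [h11]
          exact Finset.sum_nonneg (fun i _ => by rw [Complex.ofReal_re]; positivity)
        exact nonneg_of_mul_nonneg_left h13 h12
      have hb : ‖star (m j * e)‖ ≤ Real.sqrt c.re := by
        refine ContinuousLinearMap.opNorm_le_bound _ (Real.sqrt_nonneg _) (fun ζ => ?_)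
        have h8 : (inner ℂ ζ (Φ e ζ) : ℂ) = ∑ i, ((‖star (m i * e) ζ‖ ^ 2 : ℝ) : ℂ) := by
          simp only [hΦ, ContinuousLinearMap.sum_apply, inner_sum]
          refine Finset.sum_congr rfl (fun i _ => ?_)
          have h9 : m i * e * star (m i) = star (star (m i * e)) * star (m i * e) := by
            rw [star_star, star_mul, he.isSelfAdjoint.star_eq]
            calc m i * e * star (m i) = m i * (e * e) * star (m i) := by
                  rw [he.isIdempotentElem.eq]
              _ = m i * e * (e * star (m i)) := by simp only [mul_assoc]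
          rw [h9]
          exact tr_star_mul_self ζ (star (m i * e))
        rw [hc] at h8
        have h10 : (inner ℂ ζ ((c • (1 : H →L[ℂ] H)) ζ) : ℂ) = c * ((‖ζ‖ ^ 2 : ℝ) : ℂ) := by
          rw [ContinuousLinearMap.smul_apply, inner_smul_right]
          simp [inner_self_eq_norm_sq_to_K]
        rw [h10] at h8
        have h11 := congrArg Complex.re h8
        rw [Complex.re_mul_ofReal, Complex.re_sum] at h11
        have h12 : ‖star (m j * e) ζ‖ ^ 2 ≤ c.re * ‖ζ‖ ^ 2 := by
          rw [h11]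
          have := Finset.single_le_sum (f := fun i => (((‖star (m i * e) ζ‖ ^ 2 : ℝ) : ℂ)).re)
            (fun i _ => by simp only [Complex.ofReal_re]; positivity) (Finset.mem_univ j)
          simpa only [Complex.ofReal_re] using this
        have h13 : ‖star (m j * e) ζ‖ ^ 2 ≤ (Real.sqrt c.re * ‖ζ‖) ^ 2 := by
          rw [mul_pow, Real.sq_sqrt hcre]; exact h12
        exact (pow_le_pow_iff_left₀ (norm_nonneg _) (by positivity) two_ne_zero).1 h13
      rw [hstar]
      calc ‖star (m j * e)‖ ^ 2 ≤ (Real.sqrt c.re) ^ 2 :=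
            pow_le_pow_left₀ (norm_nonneg _) hb 2
        _ = c.re := Real.sq_sqrt hcre
    have h8 : ∑ j, ‖m j * e‖ ^ 2 ≤ k * c.re := by
      calc ∑ j, ‖m j * e‖ ^ 2 ≤ ∑ _j : Fin k, c.re := Finset.sum_le_sum (fun j _ => h7 j)
        _ = k * c.re := by simp
    have hk : (0 : ℝ) ≤ k := Nat.cast_nonneg k
    calc (1 : ℝ) = 1 ^ 2 := by norm_num
      _ ≤ (D * ∑ j, ‖m j * e‖) ^ 2 := pow_le_pow_left₀ zero_le_one h5 2
      _ = D ^ 2 * (∑ j, ‖m j * e‖) ^ 2 := by ring
      _ ≤ D ^ 2 * (k * (k * c.re)) := by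
          refine mul_le_mul_of_nonneg_left (h6.trans ?_) (by positivity)
          exact mul_le_mul_of_nonneg_left h8 hk
  set M : ℝ := ∑ j, ‖m j‖ ^ 2 with hM
  refine ⟨⌈D ^ 2 * (k * (k * M))⌉₊, fun r g hg hsum => ?_⟩
  choose c hc using fun i => hΦc (g i) (hg i).1 (hg i).2.1
  have h1 : ∀ i, 1 ≤ D ^ 2 * (k * (k * (c i).re)) := fun i =>
    hlow (g i) (hg i).1 (hg i).2.1 (hg i).2.2.1 (hg i).2.2.2 (c i) (hc i)
  have h2 : Φ (∑ i, g i) = (∑ i, c i) • (1 : H →L[ℂ] H) := by
    rw [Finset.sum_smul]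
    simp only [← hc, hΦ]
    rw [Finset.sum_comm]
    refine Finset.sum_congr rfl (fun j _ => ?_)
    rw [Finset.mul_sum, Finset.sum_mul]
  have h3 : ‖Φ (∑ i, g i)‖ ≤ M := by
    refine (norm_sum_le _ _).trans (Finset.sum_le_sum (fun j _ => ?_))
    calc ‖m j * (∑ i, g i) * star (m j)‖ ≤ ‖m j * (∑ i, g i)‖ * ‖star (m j)‖ := norm_mul_le _ _
      _ ≤ (‖m j‖ * ‖∑ i, g i‖) * ‖m j‖ := by
          rw [norm_star]
          exact mul_le_mul_of_nonneg_right (norm_mul_le _ _) (norm_nonneg _)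
      _ ≤ (‖m j‖ * 1) * ‖m j‖ := by
          refine mul_le_mul_of_nonneg_right ?_ (norm_nonneg _)
          exact mul_le_mul_of_nonneg_left (proj_norm_le_one hsum) (norm_nonneg _)
      _ = ‖m j‖ ^ 2 := by ring
  have h4 : ‖∑ i, c i‖ ≤ M := by
    have h5 : ‖(∑ i, c i) • (1 : H →L[ℂ] H)‖ = ‖∑ i, c i‖ := by
      rw [norm_smul, norm_one, mul_one]
    rw [← h5, ← h2]
    exact h3
  have h5 : ∑ i, (c i).re ≤ M := by
    rw [← Complex.re_sum]
    exact (Complex.re_le_norm _).trans h4
  have hk : (0 : ℝ) ≤ k := Nat.cast_nonneg k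
  have h6 : (r : ℝ) ≤ D ^ 2 * (k * (k * M)) := by
    calc (r : ℝ) = ∑ _i : Fin r, (1 : ℝ) := by simp
      _ ≤ ∑ i, D ^ 2 * (k * (k * (c i).re)) := Finset.sum_le_sum (fun i _ => h1 i)
      _ = D ^ 2 * (k * (k * ∑ i, (c i).re)) := by
          rw [Finset.mul_sum, Finset.mul_sum, Finset.mul_sum]
      _ ≤ D ^ 2 * (k * (k * M)) := by
          refine mul_le_mul_of_nonneg_left ?_ (by positivity)
          exact mul_le_mul_of_nonneg_left (mul_le_mul_of_nonneg_left h5 hk) hk
  exact_mod_cast h6.trans (Nat.le_ceil _)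

theorem pf_MU (hW : T_W H) (hSCAL : T_SCAL H) (hMINP : T_MINP H) : T_MU H := by
  classical
  intro N ξ hξ hNf hUG U hbc P hPN hPF hind
  have hFIN := pf_FIN hW N ξ hξ hUG U hbc P hPN hPF hind
  obtain ⟨E, k, m, hQ⟩ := exists_qbasis N ξ hξ P hPN hind
  set B := comm ((P : Set (H →L[ℂ] H)) ∪ (N.commutant : Set (H →L[ℂ] H))) with hB
  have hBmem : ∀ x, x ∈ B ↔ x ∈ N ∧ ∀ y ∈ P, x * y = y * x := fun x => mem_relComm_iff
  have hBN : ∀ x ∈ B, x ∈ N := fun x hx => ((hBmem x).1 hx).1
  have hPchar : ∀ x : H →L[ℂ] H, x ∈ P ↔ x ∈ N ∧ ∀ y ∈ B, x * y = y * x := by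
    intro x
    have h1 : x ∈ relComm (relComm (P : Set (H →L[ℂ] H)) N) N ↔ x ∈ (P : Set (H →L[ℂ] H)) := by
      rw [hFIN]
    constructor
    · intro hx
      obtain ⟨h2, h3⟩ := h1.2 hx
      exact ⟨h2, fun y hy => h3 y ((hBmem y).1 hy)⟩
    · rintro ⟨h2, h3⟩
      exact h1.1 ⟨h2, fun y hy => h3 y ((hBmem y).2 hy)⟩
  have h1ne : (1 : H →L[ℂ] H) ≠ 0 := by
    intro h
    have h2 : ξ = 0 := by
      have := congrArg (fun T : H →L[ℂ] H => T ξ) h
      simpa using this
    have h3 := hξ.norm_eq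
    rw [h2, norm_zero] at h3
    exact zero_ne_one h3
  -- `B` is a factor
  have hBF : FactorCorner B 1 := by
    intro x hx hxc
    have hxB : x ∈ B := hx.1
    have hxP : x ∈ P := by
      rw [hPchar]
      refine ⟨hBN x hxB, fun y hy => hxc y ⟨hy, by rw [one_mul, mul_one]⟩⟩
    exact hPF x hxP (fun y hy => ((hBmem x).1 hxB).2 y hy)
  -- `B` has a minimal projection
  obtain ⟨R, hR⟩ := orth_bound N hNf ξ hξ (P : Set (H →L[ℂ] H)) E k m hQ
  have hnot : ¬ NoMin B 1 := by
    intro hNM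
    obtain ⟨f, hfB, hf, hf0, g, hg, hsum⟩ := many_orth B hNM h1ne (R + 1)
    have h2 := hR (R + 1 + 1) (Fin.cons f g) ?_ ?_
    · omega
    · intro i
      refine Fin.cases ?_ (fun j => ?_) i
      · rw [Fin.cons_zero]
        exact ⟨hBN f hfB, ((hBmem f).1 hfB).2, hf, hf0⟩
      · rw [Fin.cons_succ]
        exact ⟨hBN _ (hg j).1, ((hBmem _).1 (hg j).1).2, (hg j).2.1, (hg j).2.2⟩
    · rw [Fin.sum_univ_succ]
      simpa only [Fin.cons_zero, Fin.cons_succ] using hsum
  obtain ⟨f, hfB, hf, hf0, hfmin⟩ : ∃ f ∈ B, IsStarProjection f ∧ f ≠ 0 ∧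
      ∀ e ∈ B, IsStarProjection e → f * e = e → e = 0 ∨ e = f := by
    by_contra hcon
    apply hnot
    intro f hfB hf _ hf0
    by_contra hc
    apply hcon
    refine ⟨f, hfB, hf, hf0, fun e heB he hfe => ?_⟩
    by_contra h
    push Not at h
    exact hc ⟨e, heB, he, hfe, h.1, h.2⟩
  have hscal := hSCAL B f hfB hf hfmin
  obtain ⟨n, v, hv, hvsum⟩ := hMINP N ξ hξ B hBN 1 (one_mem B) (.one _) hBF f hfB hf
    (one_mul f) hf0 hscal
  have hpi : ∀ i, IsStarProjection (star (v i) * v i) := fun i => by rw [(hv i).2]; exact hf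
  have hvv : ∀ i, IsStarProjection (v i * star (v i)) := fun i => proj_mul_star (hpi i)
  have hvf : ∀ i, v i * f = v i := fun i => by
    rw [← (hv i).2]; exact pi_mul_star_mul (hpi i)
  have hfv : ∀ i, f * star (v i) = star (v i) := fun i => by
    have := congrArg star (hvf i)
    rwa [star_mul, hf.isSelfAdjoint.star_eq] at this
  have horth : ∀ i j, i ≠ j → star (v i) * v j = 0 := by
    intro i j hij
    have h2 := orth_of_sum_one (fun i => v i * star (v i)) hvv hvsum i j hij
    have h3 : star (v i) * v j = star (v i) * ((v i * star (v i)) * (v j * star (v j))) * v j := by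
      calc star (v i) * v j = (f * star (v i)) * (v j * f) := by rw [hfv, hvf]
        _ = (star (v i) * v i * star (v i)) * (v j * (star (v j) * v j)) := by
            rw [(hv i).2, (hv j).2]
        _ = star (v i) * ((v i * star (v i)) * (v j * star (v j))) * v j := by
            simp only [mul_assoc]
    rw [h3, h2, mul_zero, zero_mul]
  refine ⟨n, fun i j => v i * star (v j), ⟨?_, ?_, ?_, ?_, hvsum⟩, ?_⟩
  · intro i j
    exact mul_mem (hBN _ (hv i).1) (star_mem (hBN _ (hv j).1))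
  · intro i j
    simp [star_mul]
  · intro i j l
    calc v i * star (v j) * (v j * star (v l)) = v i * (star (v j) * v j) * star (v l) := by
          simp only [mul_assoc]
      _ = v i * star (v l) := by rw [(hv j).2, hvf]
  · intro i j k' l hjk
    calc v i * star (v j) * (v k' * star (v l)) = v i * (star (v j) * v k') * star (v l) := by
          simp only [mul_assoc]
      _ = 0 := by rw [horth j k' hjk]; simp
  · intro x
    constructor
    · intro hx
      refine ⟨hPN x hx, fun i j => ?_⟩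
      have h2 : v i * star (v j) ∈ B := mul_mem (hv i).1 (star_mem (hv j).1)
      exact (((hBmem _).1 h2).2 x hx).symm
    · rintro ⟨hxN, hxc⟩
      rw [hPchar]
      refine ⟨hxN, fun b hb => ?_⟩
      have h2 : ∀ i j, ∃ c : ℂ, star (v i) * b * v j = c • f := by
        intro i j
        obtain ⟨c, hc⟩ := hscal (star (v i) * b * v j)
          (mul_mem (mul_mem (star_mem (hv i).1) hb) (hv j).1)
        refine ⟨c, ?_⟩
        rw [← hc]
        calc star (v i) * b * v j = (f * star (v i)) * b * (v j * f) := by rw [hfv, hvf]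
          _ = f * (star (v i) * b * v j) * f := by simp only [mul_assoc]
      choose c hc using h2
      have h3 : b = ∑ i, ∑ j, c i j • (v i * star (v j)) := by
        calc b = (∑ i, v i * star (v i)) * b * (∑ j, v j * star (v j)) := by
              rw [hvsum, one_mul, mul_one]
          _ = ∑ i, ∑ j, v i * (star (v i) * b * v j) * star (v j) := by
              rw [Finset.sum_mul, Finset.sum_mul]
              refine Finset.sum_congr rfl (fun i _ => ?_)
              rw [Finset.mul_sum]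
              exact Finset.sum_congr rfl (fun j _ => by simp only [mul_assoc])
          _ = ∑ i, ∑ j, c i j • (v i * star (v j)) := by
              refine Finset.sum_congr rfl (fun i _ => Finset.sum_congr rfl (fun j _ => ?_))
              rw [hc, mul_smul_comm, smul_mul_assoc, hvf]
      rw [h3, Finset.mul_sum, Finset.sum_mul]
      refine Finset.sum_congr rfl (fun i _ => ?_)
      rw [Finset.mul_sum, Finset.sum_mul]
      refine Finset.sum_congr rfl (fun j _ => ?_)
      rw [mul_smul_comm, smul_mul_assoc, hxc i j]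

end Pool.Agent.H85.BC
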