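import Pool.Agent.H85.BC.Basic

/-!
# Row W of bcg_modules: a finite quasi-basis gives w-spectral gap
-/

set_option autoImplicit false

open scoped InnerProductSpace Topology
open Filter

namespace Pool.Agent.H85.BC

variable {H : Type} [NormedAddCommGroup H] [InnerProductSpace ℂ H] [CompleteSpace H]

/-- Selection of finitely many indices. -/
theorem W_select (U : Ultrafilter ℕ) (S : Set ℕ) (hS : ∀ᶠ n in (U : Filter ℕ), n ∈ S)
    (R : ℕ → ℕ → Prop) (hsym : ∀ a b, R a b → R b a)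
    (hR : ∀ n, ∀ᶠ l in (U : Filter ℕ), R n l) (K : ℕ) :
    ∃ idx : Fin K → ℕ, (∀ i, idx i ∈ S) ∧ ∀ i j, i ≠ j → R (idx i) (idx j) := by
  induction K with
  | zero => exact ⟨fun i => i.elim0, fun i => i.elim0, fun i => i.elim0⟩
  | succ K ih =>
    obtain ⟨idx, h1, h2⟩ := ih
    have h3 : ∀ᶠ l in (U : Filter ℕ), l ∈ S ∧ ∀ i, R (idx i) l :=
      hS.and (eventually_all.2 (fun i => hR (idx i)))
    obtain ⟨l, hl1, hl2⟩ := h3.exists
    refine ⟨Fin.snoc idx l, ?_, ?_⟩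
    · intro i
      refine Fin.lastCases ?_ (fun j => ?_) i
      · simpa using hl1
      · simpa using h1 j
    · intro i j
      refine Fin.lastCases ?_ (fun i' => ?_) i
      · refine Fin.lastCases ?_ (fun j' => ?_) j
        · intro h; exact absurd rfl h
        · intro _
          simpa using hsym _ _ (hl2 j')
      · refine Fin.lastCases ?_ (fun j' => ?_) j
        · intro _
          simpa using hl2 i'
        · intro h
          have : i' ≠ j' := fun hc => h (by rw [hc])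
          simpa using h2 i' j' this

theorem pf_W (hWL : T_WL H) (hWC : T_WC H) (hWU : T_WU H) (hLOW : T_LOW H)
    (hBES : T_BES H) : T_W H := by
  intro N ξ hξ hUG P E k m hQ U x C hx hC hcomm
  obtain ⟨z, hz, hzC, hzlim⟩ := hWL N ℕ U x C hx hC
  have hzP : ∀ y ∈ P, z * y = y * z := fun y hy =>
    hWC N ξ hξ ℕ U x hx z hz hzlim y (hQ.sub y hy) (hcomm y hy)
  refine ⟨z, hz, hzP, ?_⟩
  set y : ℕ → (H →L[ℂ] H) := fun n => x n - z with hy
  have hC0 : 0 ≤ C := (norm_nonneg _).trans (hC 0)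
  have hyN : ∀ n, y n ∈ N := fun n => sub_mem (hx n) hz
  have hyB : ∀ n, ‖y n‖ ≤ 2 * C := fun n =>
    (norm_sub_le _ _).trans (by linarith [hC n, hzC])
  have hycomm : ∀ g ∈ P, Tendsto (fun n => ‖(y n * g - g * y n) ξ‖) (U : Filter ℕ) (𝓝 0) := by
    intro g hg
    refine (hcomm g hg).congr (fun n => ?_)
    have h1 : y n * g - g * y n = x n * g - g * x n := by
      simp only [hy, sub_mul, mul_sub, hzP g hg]
      abel
    rw [h1]
  have hyweak : ∀ η ζ : H, Tendsto (fun n => (inner ℂ η (y n ζ) : ℂ)) (U : Filter ℕ) (𝓝 0) := by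
    intro η ζ
    have h1 := (hzlim η ζ).sub_const (inner ℂ η (z ζ))
    rw [sub_self] at h1
    refine h1.congr (fun n => ?_)
    simp only [hy, ContinuousLinearMap.sub_apply, inner_sub_right]
  by_contra hnot
  -- a lower bound
  obtain ⟨δ, hδ, hδev⟩ : ∃ δ : ℝ, 0 < δ ∧ ∀ᶠ n in (U : Filter ℕ), δ ≤ ‖y n ξ‖ := by
    by_contra hcon
    apply hnot
    rw [Metric.tendsto_nhds]
    intro ε hε
    have h1 : ∀ᶠ n in (U : Filter ℕ), ¬ ε ≤ ‖y n ξ‖ :=
      Ultrafilter.eventually_not.2 (fun h => hcon ⟨ε, hε, h⟩)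
    filter_upwards [h1] with n hn
    rw [Real.dist_eq, sub_zero, abs_of_nonneg (norm_nonneg _)]
    exact not_le.1 hn
  obtain ⟨G₀, hG₀, C₀, hC₀, hlow⟩ := hLOW N ξ hξ P E k m hQ
  set δ₁ : ℝ := δ / (2 * (C₀ + 1)) with hδ₁
  have hδ₁pos : 0 < δ₁ := by positivity
  have hsum : ∀ᶠ n in (U : Filter ℕ), ∑ g ∈ G₀, ‖(y n * g - g * y n) ξ‖ < δ₁ := by
    have h1 : Tendsto (fun n => ∑ g ∈ G₀, ‖(y n * g - g * y n) ξ‖) (U : Filter ℕ)
        (𝓝 (∑ g ∈ G₀, (0 : ℝ))) := tendsto_finsetSum _ (fun g hg => hycomm g (hG₀ g hg))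
    rw [Finset.sum_const_zero] at h1
    exact h1.eventually (gt_mem_nhds hδ₁pos)
  have hlow2 : ∀ᶠ n in (U : Filter ℕ), δ₁ ≤ ∑ a, ‖(m a * y n) ξ‖ := by
    filter_upwards [hsum, hδev] with n h1 h2
    by_contra h3
    push Not at h3
    have h4 := hlow (y n) (hyN n)
    have h5 : C₀ * (∑ a, ‖(m a * y n) ξ‖ + ∑ g ∈ G₀, ‖(y n * g - g * y n) ξ‖) ≤
        C₀ * (δ₁ + δ₁) := mul_le_mul_of_nonneg_left (by linarith) hC₀
    have h6 : C₀ * (δ₁ + δ₁) < δ := by
      have h7 : (C₀ + 1) * (δ₁ + δ₁) = δ := by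
        rw [hδ₁]; field_simp; ring
      nlinarith
    linarith
  set c : ℕ → ℝ := fun n => ∑ a, ‖(m a * y n) ξ‖ ^ 2 with hc
  have hc0 : ∀ n, 0 ≤ c n := fun n => Finset.sum_nonneg (fun a _ => by positivity)
  set c₀ : ℝ := δ₁ ^ 2 / (k + 1) with hc₀
  have hc₀pos : 0 < c₀ := by positivity
  have hclow : ∀ᶠ n in (U : Filter ℕ), c₀ ≤ c n := by
    filter_upwards [hlow2] with n h1
    have h2 : (∑ a, ‖(m a * y n) ξ‖) ^ 2 ≤ k * c n := by
      have := sq_sum_le_card_mul_sum_sq (s := (Finset.univ : Finset (Fin k)))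
        (f := fun a => ‖(m a * y n) ξ‖)
      rw [Finset.card_univ, Fintype.card_fin] at this
      exact this
    have h3 : δ₁ ^ 2 ≤ (∑ a, ‖(m a * y n) ξ‖) ^ 2 := pow_le_pow_left₀ hδ₁pos.le h1 2
    rw [hc₀, div_le_iff₀ (by positivity)]
    nlinarith [hc0 n]
  set C₂ : ℝ := ∑ a, (‖m a‖ * (2 * C)) ^ 2 with hC₂
  have hC₂0 : 0 ≤ C₂ := Finset.sum_nonneg (fun a _ => by positivity)
  have hcup : ∀ n, c n ≤ C₂ := by
    intro n
    refine Finset.sum_le_sum (fun a _ => ?_)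
    refine pow_le_pow_left₀ (norm_nonneg _) ?_ 2
    refine ((m a * y n).le_opNorm ξ).trans ?_
    rw [hξ.norm_eq, mul_one]
    exact (norm_mul_le _ _).trans (mul_le_mul_of_nonneg_left (hyB n) (norm_nonneg _))
  -- the map Φ
  set Φ : ℕ → ℕ → (H →L[ℂ] H) := fun n l => ∑ a, m a * (y n * star (y l)) * star (m a) with hΦ
  have hΦstar : ∀ n l, star (Φ n l) = Φ l n := by
    intro n l
    simp only [hΦ, star_sum, star_mul, star_star, mul_assoc]
  have hΦtr : ∀ n, tr ξ (Φ n n) = ((c n : ℝ) : ℂ) := by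
    intro n
    simp only [hΦ, hc, tr_sum]
    push_cast
    refine Finset.sum_congr rfl (fun a _ => ?_)
    have h1 : m a * (y n * star (y n)) * star (m a) = star (star (m a * y n)) * star (m a * y n) := by
      simp only [star_star, star_mul, mul_assoc]
    rw [h1, tr_star_mul_self, hξ.norm_star (mul_mem (hQ.mem a) (hyN n))]
    push_cast
    rfl
  have hΦlim : ∀ n, Tendsto (fun l => tr ξ (Φ n l)) (U : Filter ℕ) (𝓝 0) := by
    intro n
    have h0 : ∀ l, tr ξ (Φ n l) = ∑ a, tr ξ (m a * (y n * star (y l)) * star (m a)) :=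
      fun l => tr_sum _ _ _
    simp only [h0]
    have h1 : Tendsto (fun l => ∑ a, tr ξ (m a * (y n * star (y l)) * star (m a)))
        (U : Filter ℕ) (𝓝 (∑ a : Fin k, (0 : ℂ))) := by
      refine tendsto_finsetSum _ (fun a _ => ?_)
      have h3 := (hyweak ((star (m a) : H →L[ℂ] H) ξ)
        ((star (m a * y n) : H →L[ℂ] H) ξ)).star
      rw [star_zero] at h3
      refine h3.congr (fun l => ?_)
      show (starRingEnd ℂ) (inner ℂ ((star (m a) : H →L[ℂ] H) ξ)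
        (y l ((star (m a * y n) : H →L[ℂ] H) ξ))) = _
      rw [inner_conj_symm, ← inner_star_right, inner_star_left]
      rfl
    simpa using h1
  -- choose K
  set A : ℝ := k * (C₂ + 1) with hA
  set A' : ℝ := k * (C₂ + 2) with hA'
  have hA0 : 0 ≤ A := by positivity
  have hA'0 : 0 ≤ A' := by positivity
  obtain ⟨K, hK⟩ := exists_nat_gt ((A + A' + 1) / c₀)
  have hKc : A + A' + 1 < K * c₀ := by
    rwa [div_lt_iff₀ hc₀pos] at hK
  set ε : ℝ := 1 / (2 * (K + 1)) with hε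
  have hεpos : 0 < ε := by positivity
  have hKε : (K : ℝ) * ε ≤ 1 / 2 := by
    rw [hε, mul_one_div, div_le_div_iff₀ (by positivity) (by norm_num)]
    linarith
  have hε1 : ε ≤ 1 := by
    rw [hε, div_le_one (by positivity)]
    have : (0 : ℝ) ≤ K := Nat.cast_nonneg K
    linarith
  obtain ⟨G, hG, d, hd, hWU'⟩ := hWU N ξ hξ hUG P E k m hQ (2 * C) ε hεpos
  have hSev : ∀ᶠ n in (U : Filter ℕ), n ∈ {n | c₀ ≤ c n ∧ ∀ g ∈ G,
      ‖(y n * g - g * y n) ξ‖ < d} := by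
    refine hclow.and ?_
    rw [eventually_all_finset]
    intro g hg
    exact (hycomm g (hG g hg)).eventually (gt_mem_nhds hd)
  have hR : ∀ n, ∀ᶠ l in (U : Filter ℕ), ‖tr ξ (Φ n l)‖ < ε := by
    intro n
    have h1 := (hΦlim n).norm
    rw [norm_zero] at h1
    exact h1.eventually (gt_mem_nhds hεpos)
  have hRsym : ∀ a b, ‖tr ξ (Φ a b)‖ < ε → ‖tr ξ (Φ b a)‖ < ε := by
    intro a b h
    rw [← hΦstar a b, tr_star, RCLike.norm_conj]
    exact h
  obtain ⟨idx, hidx1, hidx2⟩ := W_select U _ hSev (fun a b => ‖tr ξ (Φ a b)‖ < ε) hRsym hR K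
  have hpair : ∀ i j, ‖Φ (idx i) (idx j) ξ - tr ξ (Φ (idx i) (idx j)) • ξ‖ < ε := by
    intro i j
    exact hWU' (y (idx i)) (hyN _) (y (idx j)) (hyN _) (hyB _) (hyB _)
      (fun g hg => ⟨(hidx1 i).2 g hg, (hidx1 j).2 g hg⟩)
  have hdiag : ∀ i, ‖Φ (idx i) (idx i) ξ‖ ≤ c (idx i) + ε := by
    intro i
    have h1 := hpair i i
    have h2 : ‖tr ξ (Φ (idx i) (idx i)) • ξ‖ = c (idx i) := by
      rw [norm_smul, hξ.norm_eq, mul_one, hΦtr, Complex.norm_real, Real.norm_eq_abs,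
        abs_of_nonneg (hc0 _)]
    have h3 := norm_le_norm_add_norm_sub' (Φ (idx i) (idx i) ξ) (tr ξ (Φ (idx i) (idx i)) • ξ)
    linarith
  have hoff : ∀ i j, i ≠ j → ‖Φ (idx i) (idx j) ξ‖ ≤ 2 * ε := by
    intro i j hij
    have h1 := hpair i j
    have h2 : ‖tr ξ (Φ (idx i) (idx j)) • ξ‖ < ε := by
      rw [norm_smul, hξ.norm_eq, mul_one]
      exact hidx2 i j hij
    have h3 := norm_le_norm_add_norm_sub' (Φ (idx i) (idx j) ξ) (tr ξ (Φ (idx i) (idx j)) • ξ)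
    linarith
  have hB := hBES N ξ hξ k K m (fun i => y (idx i)) hQ.mem (fun i => hyN _)
  set T : ℝ := ∑ i, c (idx i) with hT
  have hB2 : T ^ 2 ≤ k * ∑ i, ∑ j, ‖Φ (idx i) (idx j) ξ‖ ^ 2 := hB
  have hterm : ∀ i j : Fin K, ‖Φ (idx i) (idx j) ξ‖ ^ 2 ≤
      (if i = j then (C₂ + 1) * (c (idx i) + ε) else 0) + (2 * ε) ^ 2 := by
    intro i j
    by_cases hij : i = j
    · subst hij
      rw [if_pos rfl]
      have h1 := hdiag i
      have h2 : ‖Φ (idx i) (idx i) ξ‖ ^ 2 ≤ (c (idx i) + ε) ^ 2 :=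
        pow_le_pow_left₀ (norm_nonneg _) h1 2
      have h3 : (c (idx i) + ε) ^ 2 ≤ (C₂ + 1) * (c (idx i) + ε) := by
        rw [sq]
        refine mul_le_mul_of_nonneg_right ?_ (by linarith [hc0 (idx i)])
        linarith [hcup (idx i)]
      nlinarith [sq_nonneg (2 * ε)]
    · rw [if_neg hij, zero_add]
      exact pow_le_pow_left₀ (norm_nonneg _) (hoff i j hij) 2
  have hsum2 : ∑ i, ∑ j, ‖Φ (idx i) (idx j) ξ‖ ^ 2 ≤ (C₂ + 1) * (T + K * ε) + (2 * (K * ε)) ^ 2 := by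
    calc ∑ i, ∑ j, ‖Φ (idx i) (idx j) ξ‖ ^ 2
        ≤ ∑ i : Fin K, ∑ j : Fin K, ((if i = j then (C₂ + 1) * (c (idx i) + ε) else 0) +
            (2 * ε) ^ 2) := Finset.sum_le_sum (fun i _ => Finset.sum_le_sum (fun j _ => hterm i j))
      _ = (C₂ + 1) * (T + K * ε) + (2 * (K * ε)) ^ 2 := by
          simp only [Finset.sum_add_distrib, Finset.sum_ite_eq, Finset.mem_univ, if_true,
            Finset.sum_const, Finset.card_univ, Fintype.card_fin, nsmul_eq_mul,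
            ← Finset.mul_sum, hT]
          ring
  have hTlow : K * c₀ ≤ T := by
    have h1 : ∑ _i : Fin K, c₀ ≤ ∑ i, c (idx i) :=
      Finset.sum_le_sum (fun i _ => (hidx1 i).1)
    simpa using h1
  have hk0 : (0 : ℝ) ≤ k := Nat.cast_nonneg k
  have hfin : T ^ 2 ≤ A * T + A' := by
    have h1 : (C₂ + 1) * (T + K * ε) + (2 * (K * ε)) ^ 2 ≤ (C₂ + 1) * (T + 1 / 2) + 1 := by
      have h2 : (C₂ + 1) * (T + K * ε) ≤ (C₂ + 1) * (T + 1 / 2) :=
        mul_le_mul_of_nonneg_left (by linarith) (by linarith)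
      have h3 : 0 ≤ (K : ℝ) * ε := by positivity
      nlinarith
    have h2 : (k : ℝ) * (∑ i, ∑ j, ‖Φ (idx i) (idx j) ξ‖ ^ 2) ≤
        k * ((C₂ + 1) * (T + 1 / 2) + 1) :=
      mul_le_mul_of_nonneg_left (hsum2.trans h1) hk0
    have h3 : k * ((C₂ + 1) * (T + 1 / 2) + 1) ≤ A * T + A' := by
      rw [hA, hA']
      nlinarith [mul_nonneg hk0 hC₂0]
    linarith
  nlinarith

end Pool.Agent.H85.BC
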